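import Mathlib

/-!
# A two-cardinal construction inside an ultrapower of `ℕ`

Given countably many functions `F 0, F 1, ... : ℕ → ℕ`, we construct a set `K` of elements of the
ultrapower `ℕ^ℕ / U` that contains the class of the identity `n`, is closed under all the functions
`F i` and under pairing, has only countably many elements below the powers `n ^ k`, but has
uncountably many elements below `2 ^ n`.
-/

open Filter

namespace Pool.Agent.Lib_MP_632592_lc

/-- The ultrapower of `ℕ`. -/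
noncomputable abbrev H : Type := Germ (hyperfilter ℕ : Filter ℕ) ℕ

/-- The class of a sequence in the ultrapower. -/
noncomputable abbrev cl (x : ℕ → ℕ) : H := Germ.ofFun x

theorem cl_eq {x y : ℕ → ℕ} : cl x = cl y ↔ ∀ᶠ ν in (hyperfilter ℕ : Filter ℕ), x ν = y ν :=
  Germ.coe_eq

theorem exists_cl (x : H) : ∃ f : ℕ → ℕ, cl f = x :=
  Germ.inductionOn x fun f => ⟨f, rfl⟩

/-- Codes for the functions generated by the family `F`. -/
inductive Code : Type
  | base (i : ℕ) : Code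
  | ident : Code
  | fst : Code
  | snd : Code
  | comp (a b : Code) : Code
  | pair (a b : Code) : Code
  | pop (a : Code) : Code
  | sel (a : Code) : Code
  deriving Countable

/-- A fixed coding of finite sets by natural numbers. -/
noncomputable def D : ℕ ≃ Finset ℕ := Finset.equivBitIndices

theorem exists_popular (h : ℕ → ℕ) (A : Finset ℕ) :
    ∃ c, ∀ m, (∀ x ∈ A, h x ≤ m) → A.card ≤ (m + 1) * (A.filter (fun x => h x = c)).card := by
  classical
  have hb : ∀ c, (A.filter (fun x => h x = c)).card ≤ A.card := fun c =>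
    Finset.card_filter_le _ _
  obtain ⟨c, hc⟩ : ∃ c, ∀ c', (A.filter (fun x => h x = c')).card ≤
      (A.filter (fun x => h x = c)).card := by
    rcases A.eq_empty_or_nonempty with hA | hA
    · exact ⟨0, fun c' => by simp [hA]⟩
    · obtain ⟨c, -, hc⟩ := Finset.exists_max_image (A.image h)
        (fun c => (A.filter (fun x => h x = c)).card) (hA.image h)
      refine ⟨c, fun c' => ?_⟩
      by_cases hc' : c' ∈ A.image h
      · exact hc c' hc'
      · have : A.filter (fun x => h x = c') = ∅ := by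
          apply Finset.filter_eq_empty_iff.mpr
          intro x hx hxc
          exact hc' (Finset.mem_image.mpr ⟨x, hx, hxc⟩)
        simp [this]
  refine ⟨c, fun m hm => ?_⟩
  have hmaps : Set.MapsTo h (A : Set ℕ) (Finset.range (m + 1) : Set ℕ) := by
    intro x hx
    simpa [Nat.lt_succ_iff] using hm x hx
  rw [Finset.card_eq_sum_card_fiberwise hmaps]
  calc ∑ b ∈ Finset.range (m + 1), (A.filter (fun x => h x = b)).card
      ≤ ∑ _b ∈ Finset.range (m + 1), (A.filter (fun x => h x = c)).card :=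
        Finset.sum_le_sum fun b _ => hc b
    _ = (m + 1) * (A.filter (fun x => h x = c)).card := by simp

/-- A most popular value of `h` on `A`. -/
noncomputable def pv (h : ℕ → ℕ) (A : Finset ℕ) : ℕ := Classical.choose (exists_popular h A)

theorem pv_spec (h : ℕ → ℕ) (A : Finset ℕ) (m : ℕ) (hm : ∀ x ∈ A, h x ≤ m) :
    A.card ≤ (m + 1) * (A.filter (fun x => h x = pv h A)).card :=
  Classical.choose_spec (exists_popular h A) m hm

/-- The truncated function used at one step. -/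
def trunc (g : ℕ → ℕ) (b m : ℕ) (x : ℕ) : ℕ := min (g (Nat.pair x b)) m

/-- The selected part of a finite set: the points where the truncated function takes its most
popular value, with the point `b` removed. -/
noncomputable def selSet (g : ℕ → ℕ) (A : Finset ℕ) (b m : ℕ) : Finset ℕ :=
  (A.filter (fun x => trunc g b m x = pv (trunc g b m) A)).erase b

/-- Evaluation of codes. -/
noncomputable def ev (F : ℕ → ℕ → ℕ) : Code → ℕ → ℕ
  | .base i, w => F i w
  | .ident, w => w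
  | .fst, w => w.unpair.1
  | .snd, w => w.unpair.2
  | .comp a b, w => ev F a (ev F b w)
  | .pair a b, w => Nat.pair (ev F a w) (ev F b w)
  | .pop a, w => pv (trunc (ev F a) w.unpair.2.unpair.1 w.unpair.2.unpair.2) (D w.unpair.1)
  | .sel a, w => D.symm (selSet (ev F a) (D w.unpair.1) w.unpair.2.unpair.1 w.unpair.2.unpair.2)

/-- Closure of a set of elements of the ultrapower under the coded functions and pairing. -/
structure Closed (F : ℕ → ℕ → ℕ) (K : Set H) : Prop where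
  app : ∀ (c : Code) (x : ℕ → ℕ), cl x ∈ K → cl (fun ν => ev F c (x ν)) ∈ K
  pair : ∀ x y : ℕ → ℕ, cl x ∈ K → cl y ∈ K → cl (fun ν => Nat.pair (x ν) (y ν)) ∈ K

/-- The sequence of shrinking finite sets. -/
noncomputable def Aseq (F : ℕ → ℕ → ℕ) (c : ℕ → Code) (b : ℕ → ℕ → ℕ) : ℕ → ℕ → Finset ℕ
  | 0, ν => Finset.range (2 ^ ν)
  | i + 1, ν => selSet (ev F (c i)) (Aseq F c b i ν) (b i ν) (ν ^ i)

theorem selSet_subset (g : ℕ → ℕ) (A : Finset ℕ) (b m : ℕ) : selSet g A b m ⊆ A :=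
  (Finset.erase_subset _ _).trans (Finset.filter_subset _ _)

theorem Aseq_anti (F : ℕ → ℕ → ℕ) (c : ℕ → Code) (b : ℕ → ℕ → ℕ) (ν : ℕ) :
    ∀ {i j : ℕ}, i ≤ j → Aseq F c b j ν ⊆ Aseq F c b i ν := by
  intro i j hij
  induction hij with
  | refl => exact Finset.Subset.refl _
  | step _ ih => exact (selSet_subset _ _ _ _).trans ih

theorem card_selSet (g : ℕ → ℕ) (A : Finset ℕ) (b m : ℕ) :
    A.card ≤ (m + 1) * ((selSet g A b m).card + 1) := by
  have h1 := pv_spec (trunc g b m) A m (fun x _ => min_le_right _ _)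
  refine h1.trans (Nat.mul_le_mul_left _ ?_)
  have := Finset.pred_card_le_card_erase
    (s := A.filter (fun x => trunc g b m x = pv (trunc g b m) A)) (a := b)
  unfold selSet
  omega

theorem two_pow_gt_poly (e : ℕ) : ∀ᶠ ν in (hyperfilter ℕ : Filter ℕ), (ν + 2) ^ e < 2 ^ ν := by
  apply Nat.hyperfilter_le_atTop
  have h1 : Tendsto (fun n : ℕ => ((n : ℝ) ^ e / (2 : ℝ) ^ n)) atTop (nhds 0) :=
    tendsto_pow_const_div_const_pow_of_one_lt e (by norm_num)
  have h2 : Tendsto (fun n : ℕ => (((n + 2 : ℕ) : ℝ) ^ e / (2 : ℝ) ^ (n + 2))) atTop (nhds 0) :=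
    h1.comp (tendsto_add_atTop_nat 2)
  have h3 : ∀ᶠ n : ℕ in atTop, (((n + 2 : ℕ) : ℝ) ^ e / (2 : ℝ) ^ (n + 2)) < 1 / 4 :=
    h2.eventually (gt_mem_nhds (by norm_num))
  filter_upwards [h3] with n hn
  rw [div_lt_iff₀ (by positivity)] at hn
  have : (((n + 2) ^ e : ℕ) : ℝ) < ((2 ^ n : ℕ) : ℝ) := by
    push_cast
    push_cast at hn
    calc ((n : ℝ) + 2) ^ e < 1 / 4 * 2 ^ (n + 2) := hn
      _ = 2 ^ n := by ring
  exact_mod_cast this

/-- Largeness is preserved along the sequence. -/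
theorem Aseq_large (F : ℕ → ℕ → ℕ) (c : ℕ → Code) (b : ℕ → ℕ → ℕ) (i : ℕ) :
    ∃ e : ℕ, ∀ᶠ ν in (hyperfilter ℕ : Filter ℕ),
      2 ^ ν ≤ (Aseq F c b i ν).card * (ν + 2) ^ e := by
  induction i with
  | zero => exact ⟨0, Eventually.of_forall fun ν => by simp [Aseq]⟩
  | succ i ih =>
    obtain ⟨e, he⟩ := ih
    refine ⟨e + i + 2, ?_⟩
    filter_upwards [he, two_pow_gt_poly (e + i + 2)] with ν h1 h2
    have h3 := card_selSet (ev F (c i)) (Aseq F c b i ν) (b i ν) (ν ^ i)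
    change 2 ^ ν ≤ (selSet (ev F (c i)) (Aseq F c b i ν) (b i ν) (ν ^ i)).card * _
    set s := (selSet (ev F (c i)) (Aseq F c b i ν) (b i ν) (ν ^ i)).card with hs
    have h4 : ν ^ i + 1 ≤ 2 * (ν + 2) ^ i := by
      have h5 : ν ^ i ≤ (ν + 2) ^ i := Nat.pow_le_pow_left (by omega) i
      have h6 : 1 ≤ (ν + 2) ^ i := Nat.one_le_pow _ _ (by omega)
      omega
    have h7 : 2 ^ ν ≤ (s + 1) * (2 * (ν + 2) ^ (e + i)) := by
      calc 2 ^ ν ≤ (Aseq F c b i ν).card * (ν + 2) ^ e := h1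
        _ ≤ ((ν ^ i + 1) * (s + 1)) * (ν + 2) ^ e := Nat.mul_le_mul_right _ h3
        _ ≤ ((2 * (ν + 2) ^ i) * (s + 1)) * (ν + 2) ^ e :=
            Nat.mul_le_mul_right _ (Nat.mul_le_mul_right _ h4)
        _ = (s + 1) * (2 * (ν + 2) ^ (e + i)) := by ring
    have h8 : (ν + 2) ^ (e + i + 2) = (ν + 2) ^ (e + i) * ((ν + 2) * (ν + 2)) := by ring
    have h9 : 4 * (ν + 2) ^ (e + i) ≤ (ν + 2) ^ (e + i + 2) := by
      rw [h8, mul_comm]
      exact Nat.mul_le_mul_left _ (by nlinarith)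
    have hs0 : s ≠ 0 := by
      intro h0
      rw [h0] at h7
      omega
    have hs1 : 1 ≤ s := Nat.one_le_iff_ne_zero.mpr hs0
    calc 2 ^ ν ≤ (s + 1) * (2 * (ν + 2) ^ (e + i)) := h7
      _ ≤ (2 * s) * (2 * (ν + 2) ^ (e + i)) := Nat.mul_le_mul_right _ (by omega)
      _ = s * (4 * (ν + 2) ^ (e + i)) := by ring
      _ ≤ s * (ν + 2) ^ (e + i + 2) := Nat.mul_le_mul_left _ h9

theorem Aseq_nonempty (F : ℕ → ℕ → ℕ) (c : ℕ → Code) (b : ℕ → ℕ → ℕ) (i : ℕ) :
    ∀ᶠ ν in (hyperfilter ℕ : Filter ℕ), (Aseq F c b i ν).Nonempty := by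
  obtain ⟨e, he⟩ := Aseq_large F c b i
  filter_upwards [he] with ν hν
  rw [← Finset.card_pos]
  rcases Nat.eq_zero_or_pos (Aseq F c b i ν).card with h | h
  · rw [h] at hν
    have : 0 < 2 ^ ν := by positivity
    omega
  · exact h

/-- Countable saturation for the shrinking sequence. -/
theorem exists_generic (F : ℕ → ℕ → ℕ) (c : ℕ → Code) (b : ℕ → ℕ → ℕ) :
    ∃ a : ℕ → ℕ, ∀ i, ∀ᶠ ν in (hyperfilter ℕ : Filter ℕ), a ν ∈ Aseq F c b i ν := by
  classical
  let j : ℕ → ℕ := fun ν => Nat.findGreatest (fun i => (Aseq F c b i ν).Nonempty) ν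
  have h0 : ∀ ν, (Aseq F c b 0 ν).Nonempty := fun ν => by
    refine ⟨0, ?_⟩
    simp [Aseq]
  have hj : ∀ ν, (Aseq F c b (j ν) ν).Nonempty := fun ν =>
    Nat.findGreatest_spec (P := fun i => (Aseq F c b i ν).Nonempty) (Nat.zero_le ν) (h0 ν)
  choose a ha using hj
  refine ⟨a, fun i => ?_⟩
  have hi : ∀ᶠ ν in (hyperfilter ℕ : Filter ℕ), i ≤ ν :=
    Nat.hyperfilter_le_atTop (eventually_ge_atTop i)
  filter_upwards [hi, Aseq_nonempty F c b i] with ν h1 h2
  have h3 : i ≤ j ν := Nat.le_findGreatest (P := fun i => (Aseq F c b i ν).Nonempty) h1 h2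
  exact Aseq_anti F c b ν h3 (ha ν)

theorem mem_selSet {g : ℕ → ℕ} {A : Finset ℕ} {b m x : ℕ} (h : x ∈ selSet g A b m) :
    x ≠ b ∧ trunc g b m x = pv (trunc g b m) A := by
  unfold selSet at h
  rw [Finset.mem_erase, Finset.mem_filter] at h
  exact ⟨h.1, h.2.2⟩

/-- The one-step extension. -/
theorem extend (F : ℕ → ℕ → ℕ) (K : Set H) (hK : Closed F K) (hn : cl (fun ν => ν) ∈ K)
    (hA0 : cl (fun ν => D.symm (Finset.range (2 ^ ν))) ∈ K)
    (hpow : ∀ k : ℕ, cl (fun ν => ν ^ k) ∈ K)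
    (hc : K.Countable) :
    ∃ a : ℕ → ℕ, (∀ᶠ ν in (hyperfilter ℕ : Filter ℕ), a ν < 2 ^ ν) ∧ cl a ∉ K ∧
      ∀ (c : Code) (b : ℕ → ℕ), cl b ∈ K → ∀ k : ℕ,
        (∀ᶠ ν in (hyperfilter ℕ : Filter ℕ), ev F c (Nat.pair (a ν) (b ν)) ≤ ν ^ k) →
        cl (fun ν => ev F c (Nat.pair (a ν) (b ν))) ∈ K := by
  classical
  have : Countable K := hc.to_subtype
  have : Nonempty K := ⟨⟨_, hn⟩⟩
  have : Nonempty Code := ⟨Code.ident⟩
  obtain ⟨e, he⟩ := exists_surjective_nat (Code × K)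
  choose rep hrep using exists_cl
  let c : ℕ → Code := fun i => (e i.unpair.1).1
  let b : ℕ → ℕ → ℕ := fun i => rep (e i.unpair.1).2.1
  have hb : ∀ i, cl (b i) ∈ K := fun i => by
    change cl (rep (e i.unpair.1).2.1) ∈ K
    rw [hrep]
    exact (e i.unpair.1).2.2
  obtain ⟨a, ha⟩ := exists_generic F c b
  -- all the finite sets are coded in `K`
  have hAK : ∀ i, cl (fun ν => D.symm (Aseq F c b i ν)) ∈ K := by
    intro i
    induction i with
    | zero => exact hA0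
    | succ i ih =>
      have h1 := hK.pair _ _ (hb i) (hpow i)
      have h2 := hK.pair _ _ ih h1
      have h3 := hK.app (Code.sel (c i)) _ h2
      have : (fun ν => ev F (Code.sel (c i)) (Nat.pair (D.symm (Aseq F c b i ν))
          (Nat.pair (b i ν) (ν ^ i)))) = fun ν => D.symm (Aseq F c b (i + 1) ν) := by
        funext ν
        simp [ev, Aseq]
      rw [this] at h3
      exact h3
  have hPK : ∀ i, cl (fun ν => pv (trunc (ev F (c i)) (b i ν) (ν ^ i)) (Aseq F c b i ν)) ∈ K := by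
    intro i
    have h1 := hK.pair _ _ (hb i) (hpow i)
    have h2 := hK.pair _ _ (hAK i) h1
    have h3 := hK.app (Code.pop (c i)) _ h2
    have : (fun ν => ev F (Code.pop (c i)) (Nat.pair (D.symm (Aseq F c b i ν))
        (Nat.pair (b i ν) (ν ^ i)))) =
        fun ν => pv (trunc (ev F (c i)) (b i ν) (ν ^ i)) (Aseq F c b i ν) := by
      funext ν
      simp [ev]
    rw [this] at h3
    exact h3
  have hstep : ∀ i, ∀ᶠ ν in (hyperfilter ℕ : Filter ℕ), a ν ≠ b i ν ∧
      trunc (ev F (c i)) (b i ν) (ν ^ i) (a ν) =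
        pv (trunc (ev F (c i)) (b i ν) (ν ^ i)) (Aseq F c b i ν) := by
    intro i
    filter_upwards [ha (i + 1)] with ν hν
    exact mem_selSet hν
  refine ⟨a, ?_, ?_, ?_⟩
  · filter_upwards [ha 0] with ν hν
    simpa [Aseq] using hν
  · intro hcontra
    obtain ⟨i, hi⟩ := he (Code.ident, ⟨cl a, hcontra⟩)
    have h1 := hstep (Nat.pair i 0)
    have h2 : b (Nat.pair i 0) = rep (cl a) := by
      change rep (e (Nat.pair i 0).unpair.1).2.1 = _
      rw [Nat.unpair_pair, hi]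
    rw [h2] at h1
    have h3 : cl (rep (cl a)) = cl a := hrep _
    rw [cl_eq] at h3
    have h4 : ∀ᶠ ν in (hyperfilter ℕ : Filter ℕ), False := by
      filter_upwards [h1, h3] with ν h5 h6
      exact h5.1 h6.symm
    obtain ⟨_, h⟩ := h4.exists
    exact h
  · intro c' b' hb' k hk
    obtain ⟨i, hi⟩ := he (c', ⟨cl b', hb'⟩)
    let i' := Nat.pair i (k + 1)
    have hi' : k + 1 ≤ i' := Nat.right_le_pair i (k + 1)
    have hci : c i' = c' := by
      change (e (Nat.pair i (k + 1)).unpair.1).1 = c'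
      rw [Nat.unpair_pair, hi]
    have hbi : b i' = rep (cl b') := by
      change rep (e (Nat.pair i (k + 1)).unpair.1).2.1 = _
      rw [Nat.unpair_pair, hi]
    have h1 := hstep i'
    have h2 := hPK i'
    have h3 : cl (rep (cl b')) = cl b' := hrep _
    rw [cl_eq] at h3
    have h4 : ∀ᶠ ν in (hyperfilter ℕ : Filter ℕ), 2 ≤ ν :=
      Nat.hyperfilter_le_atTop (eventually_ge_atTop 2)
    have h5 : cl (fun ν => ev F c' (Nat.pair (a ν) (b' ν))) =
        cl (fun ν => pv (trunc (ev F (c i')) (b i' ν) (ν ^ i')) (Aseq F c b i' ν)) := by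
      rw [cl_eq]
      filter_upwards [h1, h3, h4, hk] with ν h6 h7 h8 h9
      rw [← h6.2, hci, hbi, h7]
      unfold trunc
      rw [min_eq_left]
      refine h9.trans ?_
      exact Nat.pow_le_pow_right (by omega) (by omega)
    rw [h5]
    exact h2

/-- Terms over a type of generators. -/
inductive Tm (β : Type) : Type
  | var (b : β) : Tm β
  | nn : Tm β
  | app (c : Code) (t : Tm β) : Tm β
  | pair (s t : Tm β) : Tm β
  deriving Countable

/-- Evaluation of terms in the ultrapower. -/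
noncomputable def Tm.eval (F : ℕ → ℕ → ℕ) {B : Set H} : Tm B → H
  | .var b => b.1
  | .nn => cl (fun ν => ν)
  | .app c t => Germ.map (ev F c) (t.eval F)
  | .pair s t => Germ.map₂ Nat.pair (s.eval F) (t.eval F)

/-- The closure of a set of elements of the ultrapower. -/
def hull (F : ℕ → ℕ → ℕ) (B : Set H) : Set H := Set.range (Tm.eval F (B := B))

theorem hull_closed (F : ℕ → ℕ → ℕ) (B : Set H) : Closed F (hull F B) where
  app := by
    rintro c x ⟨t, ht⟩
    exact ⟨.app c t, by simp only [Tm.eval, ht]; rfl⟩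
  pair := by
    rintro x y ⟨t, ht⟩ ⟨s, hs⟩
    exact ⟨.pair t s, by simp only [Tm.eval, ht, hs]; rfl⟩

theorem nn_mem_hull (F : ℕ → ℕ → ℕ) (B : Set H) : cl (fun ν => ν) ∈ hull F B := ⟨.nn, rfl⟩

theorem subset_hull (F : ℕ → ℕ → ℕ) (B : Set H) : B ⊆ hull F B := fun b hb => ⟨.var ⟨b, hb⟩, rfl⟩

theorem hull_countable (F : ℕ → ℕ → ℕ) {B : Set H} (hB : B.Countable) : (hull F B).Countable := by
  have : Countable B := hB.to_subtype
  exact Set.countable_range _

theorem hull_min (F : ℕ → ℕ → ℕ) {B K : Set H} (hBK : B ⊆ K) (hn : cl (fun ν => ν) ∈ K)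
    (happ : ∀ (c : Code) (x : ℕ → ℕ), cl x ∈ K → cl (fun ν => ev F c (x ν)) ∈ K)
    (hpair : ∀ x y : ℕ → ℕ, cl x ∈ K → cl y ∈ K → cl (fun ν => Nat.pair (x ν) (y ν)) ∈ K) :
    hull F B ⊆ K := by
  rintro _ ⟨t, rfl⟩
  induction t with
  | var b => exact hBK b.2
  | nn => exact hn
  | app c t ih =>
    obtain ⟨x, hx⟩ := exists_cl (t.eval F)
    rw [← hx] at ih
    have := happ c x ih
    simp only [Tm.eval, ← hx]
    exact this
  | pair s t ihs iht =>
    obtain ⟨x, hx⟩ := exists_cl (s.eval F)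
    obtain ⟨y, hy⟩ := exists_cl (t.eval F)
    rw [← hx] at ihs
    rw [← hy] at iht
    have := hpair x y ihs iht
    simp only [Tm.eval, ← hx, ← hy]
    exact this

theorem hull_mono (F : ℕ → ℕ → ℕ) {B B' : Set H} (h : B ⊆ B') : hull F B ⊆ hull F B' :=
  hull_min F (h.trans (subset_hull F B')) (nn_mem_hull F B') (hull_closed F B').app
    (hull_closed F B').pair

/-- The family of admissible generating sets. -/
def Adm (F : ℕ → ℕ → ℕ) (B : Set H) : Prop :=
  (∀ x ∈ B, x < cl (fun ν => 2 ^ ν)) ∧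
    ∀ x ∈ hull F B, (∃ k : ℕ, x ≤ cl (fun ν => ν ^ k)) → x ∈ hull F ∅

theorem adm_chain (F : ℕ → ℕ → ℕ) (C : Set (Set H)) (hC : C ⊆ {B | Adm F B})
    (hchain : IsChain (· ⊆ ·) C) : ∃ ub ∈ {B | Adm F B}, ∀ s ∈ C, s ⊆ ub := by
  rcases C.eq_empty_or_nonempty with hemp | hne
  · exact ⟨∅, ⟨by simp, fun x hx _ => hx⟩, by simp [hemp]⟩
  · have key : hull F (⋃₀ C) ⊆ ⋃ B ∈ C, hull F B := by
      apply hull_min
      · rintro x ⟨B, hB, hx⟩
        exact Set.mem_biUnion hB (subset_hull F B hx)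
      · obtain ⟨B, hB⟩ := hne
        exact Set.mem_biUnion hB (nn_mem_hull F B)
      · intro c x hx
        obtain ⟨B, hB, hx⟩ := Set.mem_iUnion₂.mp hx
        exact Set.mem_biUnion hB ((hull_closed F B).app c x hx)
      · intro x y hx hy
        obtain ⟨B, hB, hx⟩ := Set.mem_iUnion₂.mp hx
        obtain ⟨B', hB', hy⟩ := Set.mem_iUnion₂.mp hy
        rcases hchain.total hB hB' with h | h
        · exact Set.mem_biUnion hB' ((hull_closed F B').pair x y (hull_mono F h hx) hy)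
        · exact Set.mem_biUnion hB ((hull_closed F B).pair x y hx (hull_mono F h hy))
    refine ⟨⋃₀ C, ⟨?_, ?_⟩, fun s hs => Set.subset_sUnion_of_mem hs⟩
    · rintro x ⟨B, hB, hx⟩
      exact (hC hB).1 x hx
    · intro x hx hk
      obtain ⟨B, hB, hx⟩ := Set.mem_iUnion₂.mp (key hx)
      exact (hC hB).2 x hx hk

theorem exists_maximal_adm (F : ℕ → ℕ → ℕ)
    (hA0 : ∃ i, F i = fun w => D.symm (Finset.range (2 ^ w)))
    (hpow : ∀ k : ℕ, ∃ i, F i = fun w => w ^ k) :
    ∃ B : Set H, Adm F B ∧ ¬ B.Countable := by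
  obtain ⟨B, hB⟩ := zorn_subset {B | Adm F B} (adm_chain F)
  refine ⟨B, hB.prop, fun hcount => ?_⟩
  have hcl := hull_closed F B
  have hnn := nn_mem_hull F B
  have hA0' : cl (fun ν => D.symm (Finset.range (2 ^ ν))) ∈ hull F B := by
    obtain ⟨i, hi⟩ := hA0
    have := hcl.app (.base i) _ hnn
    simpa [ev, hi] using this
  have hpow' : ∀ k : ℕ, cl (fun ν => ν ^ k) ∈ hull F B := by
    intro k
    obtain ⟨i, hi⟩ := hpow k
    have := hcl.app (.base i) _ hnn
    simpa [ev, hi] using this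
  obtain ⟨a, ha1, ha2, ha3⟩ := extend F (hull F B) hcl hnn hA0' hpow' (hull_countable F hcount)
  -- the extended hull
  let K' : Set H := {x | ∃ (c : Code) (b : ℕ → ℕ), cl b ∈ hull F B ∧
    x = cl (fun ν => ev F c (Nat.pair (a ν) (b ν)))}
  have hK' : hull F (insert (cl a) B) ⊆ K' := by
    apply hull_min
    · rintro x (rfl | hx)
      · exact ⟨.fst, _, hnn, by simp [ev]⟩
      · obtain ⟨y, rfl⟩ := exists_cl x
        exact ⟨.snd, y, subset_hull F B hx, by simp [ev]⟩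
    · exact ⟨.snd, _, hnn, by simp [ev]⟩
    · rintro c x ⟨c', b, hb, hx⟩
      refine ⟨.comp c c', b, hb, ?_⟩
      rw [cl_eq] at hx ⊢
      filter_upwards [hx] with ν hν
      simp [ev, hν]
    · rintro x y ⟨c, b, hb, hx⟩ ⟨c', b', hb', hy⟩
      refine ⟨.pair (.comp c (.pair .fst (.comp .fst .snd))) (.comp c' (.pair .fst
        (.comp .snd .snd))), _, hcl.pair b b' hb hb', ?_⟩
      rw [cl_eq] at hx hy ⊢
      filter_upwards [hx, hy] with ν h1 h2
      simp [ev, h1, h2]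
  have hadm : Adm F (insert (cl a) B) := by
    refine ⟨?_, ?_⟩
    · rintro x (rfl | hx)
      · exact Germ.coe_lt.mpr ha1
      · exact hB.prop.1 x hx
    · rintro x hx ⟨k, hk⟩
      obtain ⟨c, b, hb, rfl⟩ := hK' hx
      exact hB.prop.2 _ (ha3 c b hb k (Germ.coe_le.mp hk)) ⟨k, hk⟩
  have hsub : B ⊆ insert (cl a) B := Set.subset_insert _ _
  have := hB.le_of_ge hadm hsub
  exact ha2 (subset_hull F B (this (Set.mem_insert _ _)))

/-- **Two-cardinal theorem**, for a countable family of unary functions. -/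
theorem core (G : ℕ → ℕ → ℕ) : ∃ K : Set H, cl (fun ν => ν) ∈ K ∧
    (∀ (i : ℕ) (x : ℕ → ℕ), cl x ∈ K → cl (fun ν => G i (x ν)) ∈ K) ∧
    (∀ x y : ℕ → ℕ, cl x ∈ K → cl y ∈ K → cl (fun ν => Nat.pair (x ν) (y ν)) ∈ K) ∧
    {x | x ∈ K ∧ ∃ k : ℕ, x ≤ cl (fun ν => ν ^ k)}.Countable ∧
    ¬ {x | x ∈ K ∧ x < cl (fun ν => 2 ^ ν)}.Countable := by
  let F : ℕ → ℕ → ℕ := fun i w =>
    if i.unpair.1 = 0 then G i.unpair.2 w
    else if i.unpair.1 = 1 then w ^ i.unpair.2
    else D.symm (Finset.range (2 ^ w))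
  obtain ⟨B, hB, hBc⟩ := exists_maximal_adm F ⟨Nat.pair 2 0, by funext w; simp [F]⟩
    (fun k => ⟨Nat.pair 1 k, by funext w; simp [F]⟩)
  refine ⟨hull F B, nn_mem_hull F B, ?_, (hull_closed F B).pair, ?_, ?_⟩
  · intro i x hx
    have := (hull_closed F B).app (.base (Nat.pair 0 i)) x hx
    simpa [ev, F] using this
  · exact (hull_countable F Set.countable_empty).mono fun x hx => hB.2 x hx.1 hx.2
  · intro h
    refine hBc (h.mono fun x hx => ?_)
    exact And.intro (subset_hull F B hx) (hB.1 x hx)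

/-- Decoding of tuples. -/
def dec : (a : ℕ) → ℕ → Fin a → ℕ
  | 0, _ => Fin.elim0
  | a + 1, w => Fin.cons w.unpair.1 (dec a w.unpair.2)

theorem exists_enc {K : Set H} (hn : cl (fun ν => ν) ∈ K)
    (hpair : ∀ x y : ℕ → ℕ, cl x ∈ K → cl y ∈ K → cl (fun ν => Nat.pair (x ν) (y ν)) ∈ K)
    (a : ℕ) (x : Fin a → ℕ → ℕ) (hx : ∀ j, cl (x j) ∈ K) :
    ∃ w : ℕ → ℕ, cl w ∈ K ∧ ∀ ν, dec a (w ν) = fun j => x j ν := by
  induction a with
  | zero => exact ⟨_, hn, fun ν => by funext j; exact j.elim0⟩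
  | succ a ih =>
    obtain ⟨w, hw, hdec⟩ := ih (fun j => x j.succ) (fun j => hx j.succ)
    refine ⟨_, hpair (x 0) w (hx 0) hw, fun ν => ?_⟩
    simp only [dec, Nat.unpair_pair, hdec]
    funext j
    refine Fin.cases ?_ (fun j => ?_) j
    · rfl
    · rfl

/-- **Two-cardinal theorem**, for a countable family of functions of arbitrary finite arities. -/
theorem core_arity {ι : Type} [Countable ι] (ar : ι → ℕ) (G : (i : ι) → (Fin (ar i) → ℕ) → ℕ) :
    ∃ K : Set H, cl (fun ν => ν) ∈ K ∧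
    (∀ (i : ι) (x : Fin (ar i) → ℕ → ℕ), (∀ j, cl (x j) ∈ K) →
      cl (fun ν => G i (fun j => x j ν)) ∈ K) ∧
    {x | x ∈ K ∧ ∃ k : ℕ, x ≤ cl (fun ν => ν ^ k)}.Countable ∧
    ¬ {x | x ∈ K ∧ x < cl (fun ν => 2 ^ ν)}.Countable := by
  classical
  rcases isEmpty_or_nonempty ι with hι | hι
  · obtain ⟨K, h1, -, -, h4, h5⟩ := core (fun _ w => w)
    exact ⟨K, h1, fun i => (hι.false i).elim, h4, h5⟩
  · obtain ⟨e, he⟩ := exists_surjective_nat ι
    obtain ⟨K, h1, h2, h3, h4, h5⟩ := core (fun i w => G (e i) (dec (ar (e i)) w))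
    refine ⟨K, h1, fun i x hx => ?_, h4, h5⟩
    obtain ⟨i', rfl⟩ := he i
    obtain ⟨w, hw, hdec⟩ := exists_enc h1 h3 _ x hx
    have := h2 i' w hw
    simpa [hdec] using this

end Pool.Agent.Lib_MP_632592_lc
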