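import Mathlib

/-!
# Models of `VTC^0`, their binary integers, and exponential integer parts

Definitions used in the statement of the main result: structures for the two-sorted language of
bounded arithmetic, `Σ^B_0` formulas, the theory `VTC^0`, the ordered ring of binary integers of a
model, and exponential integer parts of ordered exponential fields.
-/

namespace Pool.Agent.Lib_MP_632592_lc

/-- A structure for the two-sorted (Zambella / Cook–Nguyen) language of bounded arithmetic: a number
sort with `0, 1, +, ·, ≤`, a string sort (finite sets of numbers), the length `|X|` of a string, and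
the membership relation `i ∈ X`.  Equality is true equality in both sorts. -/
structure TwoSorted where
  /-- the number sort -/
  Num : Type
  /-- the string sort -/
  Str : Type
  zero : Num
  one : Num
  add : Num → Num → Num
  mul : Num → Num → Num
  le : Num → Num → Prop
  /-- the length function `X ↦ |X|` -/
  len : Str → Num
  /-- `mem i X` is the relation `i ∈ X`, also written `X(i)` -/
  mem : Num → Str → Prop

/-- Number terms in variables `x_0, x_1, …` (numbers) and `X_0, X_1, …` (strings). -/
inductive NTerm : Type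
  /-- the number variable `x_i` -/
  | var (i : ℕ) : NTerm
  /-- the term `|X_j|` -/
  | len (j : ℕ) : NTerm
  | zero : NTerm
  | one : NTerm
  | add (s t : NTerm) : NTerm
  | mul (s t : NTerm) : NTerm
  deriving Countable

/-- `Σ^B_0` formulas: all number quantifiers are bounded, there are no string quantifiers.
(The other connectives and the bounded existential quantifier are definable from these.) -/
inductive BForm : Type
  /-- `s = t` -/
  | eq (s t : NTerm) : BForm
  /-- `s ≤ t` -/
  | le (s t : NTerm) : BForm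
  /-- `t ∈ X_j` -/
  | mem (t : NTerm) (j : ℕ) : BForm
  /-- `X_i = X_j` -/
  | streq (i j : ℕ) : BForm
  /-- negation -/
  | neg (φ : BForm) : BForm
  /-- conjunction -/
  | and (φ ψ : BForm) : BForm
  /-- the bounded quantifier `∀ x_i ≤ t, φ` -/
  | ball (i : ℕ) (t : NTerm) (φ : BForm) : BForm
  deriving Countable

namespace TwoSorted

variable (M : TwoSorted)

/-- The value of a term under an assignment `v` of numbers and `V` of strings. -/
def eval (v : ℕ → M.Num) (V : ℕ → M.Str) : NTerm → M.Num
  | .var i => v i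
  | .len j => M.len (V j)
  | .zero => M.zero
  | .one => M.one
  | .add s t => M.add (eval v V s) (eval v V t)
  | .mul s t => M.mul (eval v V s) (eval v V t)

/-- Satisfaction of a `Σ^B_0` formula under an assignment `v` of numbers and `V` of strings. -/
def Holds (V : ℕ → M.Str) : BForm → (ℕ → M.Num) → Prop
  | .eq s t, v => M.eval v V s = M.eval v V t
  | .le s t, v => M.le (M.eval v V s) (M.eval v V t)
  | .mem t j, v => M.mem (M.eval v V t) (V j)
  | .streq i j, _ => V i = V j
  | .neg φ, v => ¬ Holds V φ v
  | .and φ ψ, v => Holds V φ v ∧ Holds V ψ v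
  | .ball i t φ, v => ∀ x : M.Num, M.le x (M.eval v V t) → Holds V φ (Function.update v i x)

/-- `x < y` is `x ≤ y` and `x ≠ y`. -/
def lt (x y : M.Num) : Prop := M.le x y ∧ x ≠ y

/-- The pairing function `⟨x, y⟩ = (x + y) (x + y + 1) + 2 y`. -/
def pair (x y : M.Num) : M.Num :=
  M.add (M.mul (M.add x y) (M.add (M.add x y) M.one)) (M.mul (M.add M.one M.one) y)

/-! ### Binary arithmetic on strings -/

/-- A carry enters position `i` in the binary addition of `X` and `Y`. -/
def Carry (i : M.Num) (X Y : M.Str) : Prop :=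
  ∃ k, M.lt k i ∧ M.mem k X ∧ M.mem k Y ∧ ∀ j, M.lt k j → M.lt j i → M.mem j X ∨ M.mem j Y

/-- `Z` is the sum `X + Y` of binary numbers. -/
def IsSum (X Y Z : M.Str) : Prop :=
  ∀ i, M.mem i Z ↔ Xor (Xor (M.mem i X) (M.mem i Y)) (M.Carry i X Y)

/-- `X < Y` as binary numbers: the highest position where they differ belongs to `Y`. -/
def StrLT (X Y : M.Str) : Prop :=
  ∃ i, ¬ M.mem i X ∧ M.mem i Y ∧ ∀ j, M.lt i j → (M.mem j X ↔ M.mem j Y)

/-- `R` is the row `W^{[i]} = {j : ⟨i, j⟩ ∈ W}` of `W`. -/
def IsRow (W : M.Str) (i : M.Num) (R : M.Str) : Prop :=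
  ∀ j, M.mem j R ↔ M.mem (M.pair i j) W

/-- `D` is the `i`-th summand of the long multiplication of `X` by `Y`: it is `2^i X` if `i ∈ Y`,
and `0` otherwise. -/
def IsSummand (X Y : M.Str) (i : M.Num) (D : M.Str) : Prop :=
  ∀ j, M.mem j D ↔ M.mem i Y ∧ ∃ k, M.mem k X ∧ j = M.add k i

/-- `Z` is the product `X · Y` of binary numbers: there is an array `W` of running sums with
`W^{[0]} = 0`, `W^{[i+1]} = W^{[i]} + (2^i X if i ∈ Y, else 0)` for `i < |Y|`, and
`W^{[|Y|]} = Z`. -/
def IsProd (X Y Z : M.Str) : Prop :=
  ∃ W : M.Str, (∀ j, ¬ M.mem (M.pair M.zero j) W) ∧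
    (∀ i, M.lt i (M.len Y) → ∃ R D R', M.IsRow W i R ∧ M.IsSummand X Y i D ∧
      M.IsRow W (M.add i M.one) R' ∧ M.IsSum R D R') ∧
    M.IsRow W (M.len Y) Z

/-- `C` is the graph of the function counting the elements of `X` up to `n`: it maps `0` to `0`, and
for `i < n` it maps `i + 1` to `C(i) + 1` if `i ∈ X` and to `C(i)` if `i ∉ X`. -/
def IsCount (n : M.Num) (X C : M.Str) : Prop :=
  (∀ c, M.mem (M.pair M.zero c) C ↔ c = M.zero) ∧
    ∀ i, M.lt i n → ∃ c, (∀ d, M.mem (M.pair i d) C ↔ d = c) ∧
      (M.mem i X → ∀ d, M.mem (M.pair (M.add i M.one) d) C ↔ d = M.add c M.one) ∧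
      (¬ M.mem i X → ∀ d, M.mem (M.pair (M.add i M.one) d) C ↔ d = c)

/-! ### The theory `VTC^0` -/

/-- `M` is a model of `VTC^0`: the basic axioms `2-BASIC` (B1–B12, L1, L2, SE), the comprehension
schema for `Σ^B_0` formulas (these two give `V^0`), and the totality of counting.  We also include
the totality of binary multiplication, which over `V^0` is another way to axiomatize `VTC^0`. -/
structure IsVTC0 : Prop where
  B1 : ∀ x, M.add x M.one ≠ M.zero
  B2 : ∀ x y, M.add x M.one = M.add y M.one → x = y
  B3 : ∀ x, M.add x M.zero = x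
  B4 : ∀ x y, M.add x (M.add y M.one) = M.add (M.add x y) M.one
  B5 : ∀ x, M.mul x M.zero = M.zero
  B6 : ∀ x y, M.mul x (M.add y M.one) = M.add (M.mul x y) x
  B7 : ∀ x y, M.le x y → M.le y x → x = y
  B8 : ∀ x y, M.le x (M.add x y)
  B9 : ∀ x, M.le M.zero x
  B10 : ∀ x y, M.le x y ∨ M.le y x
  B11 : ∀ x y, M.le x y ↔ M.lt x (M.add y M.one)
  B12 : ∀ x, x ≠ M.zero → ∃ y, M.le y x ∧ M.add y M.one = x
  L1 : ∀ X y, M.mem y X → M.lt y (M.len X)
  L2 : ∀ X y, M.add y M.one = M.len X → M.mem y X
  SE : ∀ X Y, M.len X = M.len Y → (∀ i, M.lt i (M.len X) → (M.mem i X ↔ M.mem i Y)) → X = Y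
  /-- `Σ^B_0` comprehension: `∃ X, |X| ≤ y ∧ ∀ z < y, (z ∈ X ↔ φ(z))`, where `z` is the variable
  `x_i` and the other variables of `φ` are parameters -/
  comprehension : ∀ (φ : BForm) (i : ℕ) (v : ℕ → M.Num) (V : ℕ → M.Str) (y : M.Num),
    ∃ X : M.Str, M.le (M.len X) y ∧
      ∀ z, M.lt z y → (M.mem z X ↔ M.Holds V φ (Function.update v i z))
  /-- counting: for all `n` and `X` the counting function of `X` up to `n` exists -/
  counting : ∀ (n : M.Num) (X : M.Str), ∃ C : M.Str, M.IsCount n X C
  /-- totality of binary multiplication -/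
  multiplication : ∀ X Y : M.Str, ∃ Z : M.Str, M.IsProd X Y Z

/-- The ordered ring `Z` is the ring `ℤ^M` of binary integers of `M`: the map `val` is a bijection
of the strings of `M` onto the nonnegative elements of `Z` that carries the order, the addition and
the multiplication of binary numbers in `M` to those of `Z` (so that every element of `Z` is
`± val X` for a string `X`). -/
structure IsBinaryIntegers {Z : Type*} [CommRing Z] [LinearOrder Z] [IsStrictOrderedRing Z]
    (val : M.Str → Z) : Prop where
  injective : Function.Injective val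
  range_eq : ∀ z : Z, 0 ≤ z ↔ ∃ X, val X = z
  lt_iff : ∀ X Y, val X < val Y ↔ M.StrLT X Y
  add_iff : ∀ X Y W, val X + val Y = val W ↔ M.IsSum X Y W
  mul_iff : ∀ X Y W, val X * val Y = val W ↔ M.IsProd X Y W

end TwoSorted

/-! ### Exponential integer parts -/

/-- `E` is an exponential to base `2` on the ordered field `R`: an isomorphism of ordered groups
`(R, +, <) → (R_{>0}, ·, <)` with `E 1 = 2`. -/
structure IsExponential {R : Type*} [Field R] [LinearOrder R] [IsStrictOrderedRing R]
    (E : R → R) : Prop where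
  pos : ∀ x, 0 < E x
  map_add : ∀ x y, E (x + y) = E x * E y
  strictMono : StrictMono E
  surj : ∀ y, 0 < y → ∃ x, E x = y
  map_one : E 1 = 2

/-- The embedding `ι : Z → R` of ordered rings makes `Z` (that is, its image) an exponential integer
part of `(R, E)`: `Z` is discretely ordered, every `r` in `R` satisfies `z ≤ r < z + 1` for some `z`
in `Z`, and `E a` belongs to `Z` for every `a > 0` in `Z`. -/
structure IsExpIntegerPart {Z R : Type*} [CommRing Z] [LinearOrder Z] [IsStrictOrderedRing Z]
    [Field R] [LinearOrder R] [IsStrictOrderedRing R] (E : R → R) (ι : Z →+* R) : Prop where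
  strictMono : StrictMono ι
  discrete : ∀ z : Z, 0 < z → 1 ≤ z
  integerPart : ∀ r : R, ∃ z : Z, ι z ≤ r ∧ r < ι z + 1
  exp_mem : ∀ a : Z, 0 < a → ∃ b : Z, ι b = E (ι a)

end Pool.Agent.Lib_MP_632592_lc
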