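import Pool.Agent.Lib_MP_632592_lc.Model

/-!
# Transfer of `Σ^B_0` formulas between the model and the standard structure
-/

open Filter

namespace Pool.Agent.Lib_MP_632592_lc

open TwoSorted

variable {K : Set H} (hK : Good K)

theorem los_term {x y : ℕ → ℕ → ℕ} {v : ℕ → (Mod hK).Num} {V : ℕ → (Mod hK).Str}
    (hv : ∀ j, ∃ h h', v j = num hK (x j) h h') (hV : ∀ j, ∃ h h', V j = str hK (y j) h h')
    (t : NTerm) :
    ∃ h h', (Mod hK).eval v V t =
      num hK (fun ν => Nstd.eval (fun j => x j ν) (fun j => y j ν) t) h h' := by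
  induction t with
  | var i => exact hv i
  | len j =>
    obtain ⟨h, h', e⟩ := hV j
    refine ⟨hK.size h, h'.size, ?_⟩
    simp only [eval, e]
    rfl
  | zero => exact ⟨hK.zero, isSmall_zero, rfl⟩
  | one => exact ⟨hK.one, isSmall_one, rfl⟩
  | add s t ihs iht =>
    obtain ⟨h, h', e⟩ := ihs
    obtain ⟨k, k', e'⟩ := iht
    refine ⟨hK.add h k, h'.add k', ?_⟩
    simp only [eval, e, e']
    rfl
  | mul s t ihs iht =>
    obtain ⟨h, h', e⟩ := ihs
    obtain ⟨k, k', e'⟩ := iht
    refine ⟨hK.mul h k, h'.mul k', ?_⟩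
    simp only [eval, e, e']
    rfl

theorem update_seq (x : ℕ → ℕ → ℕ) (i : ℕ) (s : ℕ → ℕ) (ν : ℕ) :
    (fun j => Function.update x i s j ν) = Function.update (fun j => x j ν) i (s ν) := by
  funext j
  by_cases hji : j = i
  · subst hji; simp
  · simp [hji]

theorem los {y : ℕ → ℕ → ℕ} {V : ℕ → (Mod hK).Str}
    (hV : ∀ j, ∃ h h', V j = str hK (y j) h h') (φ : BForm) :
    ∀ {x : ℕ → ℕ → ℕ} {v : ℕ → (Mod hK).Num}, (∀ j, ∃ h h', v j = num hK (x j) h h') →
      ((Mod hK).Holds V φ v ↔ ∀ᶠ ν in (hyperfilter ℕ : Filter ℕ),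
        Nstd.Holds (fun j => y j ν) φ (fun j => x j ν)) := by
  induction φ with
  | eq s t =>
    intro x v hv
    obtain ⟨h, h', e⟩ := los_term hK hv hV s
    obtain ⟨k, k', e'⟩ := los_term hK hv hV t
    simp only [Holds, e, e']
    exact num_eq hK
  | le s t =>
    intro x v hv
    obtain ⟨h, h', e⟩ := los_term hK hv hV s
    obtain ⟨k, k', e'⟩ := los_term hK hv hV t
    simp only [Holds, e, e']
    exact num_le hK
  | mem t j =>
    intro x v hv
    obtain ⟨h, h', e⟩ := los_term hK hv hV t
    obtain ⟨k, k', e'⟩ := hV j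
    simp only [Holds, e, e']
    exact mem_iff hK
  | streq i j =>
    intro x v hv
    obtain ⟨h, h', e⟩ := hV i
    obtain ⟨k, k', e'⟩ := hV j
    simp only [Holds, e, e']
    exact str_eq hK
  | neg φ ih =>
    intro x v hv
    simp only [Holds, ih hv]
    rw [Ultrafilter.eventually_not]
  | and φ ψ ih1 ih2 =>
    intro x v hv
    simp only [Holds, ih1 hv, ih2 hv]
    rw [eventually_and]
  | ball i t φ ih =>
    intro x v hv
    obtain ⟨h, h', e⟩ := los_term hK hv hV t
    simp only [Holds, e]
    constructor
    · intro hall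
      by_contra hcon
      rw [← Ultrafilter.eventually_not] at hcon
      let s : ℕ → ℕ := fun ν => sInf {z : ℕ | z ≤ Nstd.eval (fun j => x j ν) (fun j => y j ν) t ∧
        ¬ Nstd.Holds (fun j => y j ν) φ (Function.update (fun j => x j ν) i z)}
      have hs : ∀ᶠ ν in (hyperfilter ℕ : Filter ℕ),
          s ν ≤ Nstd.eval (fun j => x j ν) (fun j => y j ν) t ∧
          ¬ Nstd.Holds (fun j => y j ν) φ (Function.update (fun j => x j ν) i (s ν)) := by
        filter_upwards [hcon] with ν hν
        push Not at hν
        obtain ⟨z, hz1, hz2⟩ := hν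
        exact Nat.sInf_mem (s := {z : ℕ | z ≤ Nstd.eval (fun j => x j ν) (fun j => y j ν) t ∧
          ¬ Nstd.Holds (fun j => y j ν) φ (Function.update (fun j => x j ν) i z)}) ⟨z, hz1, hz2⟩
      have hsK : cl s ∈ K := by
        refine hK.closed (.sk φ i t) x y (fun j => ?_) (fun j => ?_)
        · obtain ⟨h, _, _⟩ := hv j; exact h
        · obtain ⟨h, _, _⟩ := hV j; exact h
      have hss : IsSmall (cl s) := h'.mono (hs.mono fun ν hν => hν.1)
      have h1 := hall (num hK s hsK hss) ((num_le hK).mpr (hs.mono fun ν hν => hν.1))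
      have h2 : ∀ j, ∃ h h', Function.update v i (num hK s hsK hss) j =
          num hK (Function.update x i s j) h h' := by
        intro j
        by_cases hji : j = i
        · subst hji
          simp only [Function.update_self]
          exact ⟨hsK, hss, trivial⟩
        · simp only [Function.update_of_ne hji]
          exact hv j
      rw [ih h2] at h1
      obtain ⟨ν, hν1, hν2⟩ := (h1.and hs).exists
      rw [update_seq] at hν1
      exact hν2.2 hν1
    · intro hall z hz
      obtain ⟨z, k, k', rfl⟩ := exists_num hK z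
      have h2 : ∀ j, ∃ h h', Function.update v i (num hK z k k') j =
          num hK (Function.update x i z j) h h' := by
        intro j
        by_cases hji : j = i
        · subst hji
          simp only [Function.update_self]
          exact ⟨k, k', trivial⟩
        · simp only [Function.update_of_ne hji]
          exact hv j
      rw [ih h2]
      have h3 := (num_le hK).mp hz
      filter_upwards [h3, hall] with ν h4 h5
      rw [update_seq]
      exact h5 _ h4

end Pool.Agent.Lib_MP_632592_lc
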