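import Pool.Agent.Lib_MP_632592_lc.Std

/-!
# The model with a countable number sort and an uncountable string sort
-/

open Filter

namespace Pool.Agent.Lib_MP_632592_lc

open TwoSorted

/-- Names of the functions under which the set `K` must be closed. -/
inductive Fn : Type
  | comp (φ : BForm) (i : ℕ) : Fn
  | sk (φ : BForm) (i : ℕ) (t : NTerm) : Fn
  | zero : Fn
  | one : Fn
  | add : Fn
  | mul : Fn
  | sub : Fn
  | size : Fn
  | cnt : Fn
  | cntarr : Fn
  | wprod : Fn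
  | row : Fn
  | pprod : Fn
  | summand : Fn
  | bad : Fn
  deriving Countable

/-- The functions: `v` is the sequence of number arguments, `V` of string arguments. -/
noncomputable def G : Fn → (ℕ → ℕ) → (ℕ → ℕ) → ℕ
  | .comp φ i, v, V => ofPred (v i) (fun z => Nstd.Holds V φ (Function.update v i z))
  | .sk φ i t, v, V =>
      sInf {x : ℕ | x ≤ Nstd.eval v V t ∧ ¬ Nstd.Holds V φ (Function.update v i x)}
  | .zero, _, _ => 0
  | .one, _, _ => 1
  | .add, v, _ => v 0 + v 1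
  | .mul, v, _ => v 0 * v 1
  | .sub, v, _ => v 0 - v 1
  | .size, v, _ => Nat.size (v 0)
  | .cnt, v, V => cntf (V 0) (v 0)
  | .cntarr, v, V => cntarr (v 0) (V 0)
  | .wprod, _, V => wprod (V 0) (V 1)
  | .row, v, V => rowf (V 0) (v 0)
  | .pprod, v, V => pprod (V 0) (V 1) (v 0)
  | .summand, v, V => summand (V 0) (V 1) (v 0)
  | .bad, _, V => sInf {i : ℕ | i ≤ Nat.size (V 1) ∧ rowf (V 2) i ≠ pprod (V 0) (V 1) i}

/-- Bounds for the number of arguments on which the functions depend. -/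
def NG : Fn → ℕ
  | .comp φ i => max (bdF φ) (i + 1)
  | .sk φ _ t => max (bdF φ) (bdT t)
  | _ => 3

theorem upd_congr {v v' : ℕ → ℕ} {N i z : ℕ} (h : ∀ j < N, v j = v' j) :
    ∀ j < N, Function.update v i z j = Function.update v' i z j := by
  intro j hj
  by_cases hji : j = i
  · subst hji; simp
  · simp only [Function.update_of_ne hji]; exact h j hj

theorem G_congr (f : Fn) (v v' V V' : ℕ → ℕ) (hv : ∀ j < NG f, v j = v' j)
    (hV : ∀ j < NG f, V j = V' j) : G f v V = G f v' V' := by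
  cases f with
  | comp φ i =>
    simp only [NG] at hv hV
    have hi : v i = v' i := hv i (by simp)
    simp only [G, hi]
    apply ofPred_congr
    intro z _
    exact holds_congr Nstd φ (le_max_left _ _) hV (upd_congr hv)
  | sk φ i t =>
    simp only [NG] at hv hV
    simp only [G, eval_congr Nstd t (le_max_right _ _) hv hV]
    congr 1
    ext x
    simp only [Set.mem_ofPred_eq]
    refine and_congr_right fun _ => not_congr ?_
    exact holds_congr Nstd φ (le_max_left _ _) hV (upd_congr hv)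
  | zero => rfl
  | one => rfl
  | add => simp only [G, NG] at *; rw [hv 0 (by norm_num), hv 1 (by norm_num)]
  | mul => simp only [G, NG] at *; rw [hv 0 (by norm_num), hv 1 (by norm_num)]
  | sub => simp only [G, NG] at *; rw [hv 0 (by norm_num), hv 1 (by norm_num)]
  | size => simp only [G, NG] at *; rw [hv 0 (by norm_num)]
  | cnt => simp only [G, NG] at *; rw [hv 0 (by norm_num), hV 0 (by norm_num)]
  | cntarr => simp only [G, NG] at *; rw [hv 0 (by norm_num), hV 0 (by norm_num)]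
  | wprod => simp only [G, NG] at *; rw [hV 0 (by norm_num), hV 1 (by norm_num)]
  | row => simp only [G, NG] at *; rw [hv 0 (by norm_num), hV 0 (by norm_num)]
  | pprod =>
    simp only [G, NG] at *
    rw [hv 0 (by norm_num), hV 0 (by norm_num), hV 1 (by norm_num)]
  | summand =>
    simp only [G, NG] at *
    rw [hv 0 (by norm_num), hV 0 (by norm_num), hV 1 (by norm_num)]
  | bad =>
    simp only [G, NG] at *
    rw [hV 0 (by norm_num), hV 1 (by norm_num), hV 2 (by norm_num)]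

theorem core_fin {ι : Type} [Countable ι] (N : ι → ℕ) (G : ι → (ℕ → ℕ) → (ℕ → ℕ) → ℕ)
    (hG : ∀ i v v' V V', (∀ j < N i, v j = v' j) → (∀ j < N i, V j = V' j) →
      G i v V = G i v' V') :
    ∃ K : Set H, cl (fun ν => ν) ∈ K ∧
    (∀ (i : ι) (x y : ℕ → ℕ → ℕ), (∀ j, cl (x j) ∈ K) → (∀ j, cl (y j) ∈ K) →
      cl (fun ν => G i (fun j => x j ν) (fun j => y j ν)) ∈ K) ∧
    {x | x ∈ K ∧ ∃ k : ℕ, x ≤ cl (fun ν => ν ^ k)}.Countable ∧
    ¬ {x | x ∈ K ∧ x < cl (fun ν => 2 ^ ν)}.Countable := by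
  classical
  obtain ⟨K, h1, h2, h3, h4⟩ := core_arity (ι := ι) (fun i => N i + N i)
    (fun i w => G i (fun j => if h : j < N i then w ⟨j, by omega⟩ else 0)
      (fun j => if h : j < N i then w ⟨N i + j, by omega⟩ else 0))
  refine ⟨K, h1, fun i x y hx hy => ?_, h3, h4⟩
  have := h2 i (fun j => if (j : ℕ) < N i then x j else y (j - N i)) (fun j => by
    split_ifs
    · exact hx _
    · exact hy _)
  refine (congrArg (· ∈ K) (congrArg cl ?_)).mp this
  funext ν
  apply hG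
  · intro j hj
    simp [hj]
  · intro j hj
    simp [hj]

/-- The closure properties of `K` used in the construction of the model. -/
structure Good (K : Set H) : Prop where
  nn : cl (fun ν => ν) ∈ K
  closed : ∀ (f : Fn) (x y : ℕ → ℕ → ℕ), (∀ j, cl (x j) ∈ K) → (∀ j, cl (y j) ∈ K) →
      cl (fun ν => G f (fun j => x j ν) (fun j => y j ν)) ∈ K

theorem exists_good : ∃ K : Set H, Good K ∧
    {x | x ∈ K ∧ ∃ k : ℕ, x ≤ cl (fun ν => ν ^ k)}.Countable ∧
    ¬ {x | x ∈ K ∧ x < cl (fun ν => 2 ^ ν)}.Countable := by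
  obtain ⟨K, h1, h2, h3, h4⟩ := core_fin NG G G_congr
  exact ⟨K, ⟨h1, h2⟩, h3, h4⟩

namespace Good

variable {K : Set H} (hK : Good K)
include hK

theorem zero : cl (fun _ => 0) ∈ K :=
  hK.closed .zero (fun _ ν => ν) (fun _ ν => ν) (fun _ => hK.nn) (fun _ => hK.nn)

theorem one : cl (fun _ => 1) ∈ K :=
  hK.closed .one (fun _ ν => ν) (fun _ ν => ν) (fun _ => hK.nn) (fun _ => hK.nn)

theorem add {x y : ℕ → ℕ} (hx : cl x ∈ K) (hy : cl y ∈ K) : cl (fun ν => x ν + y ν) ∈ K := by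
  have := hK.closed .add (fun j => if j = 0 then x else y) (fun _ ν => ν)
    (fun j => by split_ifs <;> assumption) (fun _ => hK.nn)
  simpa [G] using this

theorem mul {x y : ℕ → ℕ} (hx : cl x ∈ K) (hy : cl y ∈ K) : cl (fun ν => x ν * y ν) ∈ K := by
  have := hK.closed .mul (fun j => if j = 0 then x else y) (fun _ ν => ν)
    (fun j => by split_ifs <;> assumption) (fun _ => hK.nn)
  simpa [G] using this

theorem sub {x y : ℕ → ℕ} (hx : cl x ∈ K) (hy : cl y ∈ K) : cl (fun ν => x ν - y ν) ∈ K := by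
  have := hK.closed .sub (fun j => if j = 0 then x else y) (fun _ ν => ν)
    (fun j => by split_ifs <;> assumption) (fun _ => hK.nn)
  simpa [G] using this

theorem size {x : ℕ → ℕ} (hx : cl x ∈ K) : cl (fun ν => Nat.size (x ν)) ∈ K :=
  hK.closed .size (fun _ => x) (fun _ ν => ν) (fun _ => hx) (fun _ => hK.nn)

theorem cnt {i X : ℕ → ℕ} (hi : cl i ∈ K) (hX : cl X ∈ K) : cl (fun ν => cntf (X ν) (i ν)) ∈ K :=
  hK.closed .cnt (fun _ => i) (fun _ => X) (fun _ => hi) (fun _ => hX)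

theorem cntarr {i X : ℕ → ℕ} (hi : cl i ∈ K) (hX : cl X ∈ K) :
    cl (fun ν => Lib_MP_632592_lc.cntarr (i ν) (X ν)) ∈ K :=
  hK.closed .cntarr (fun _ => i) (fun _ => X) (fun _ => hi) (fun _ => hX)

theorem wprod {X Y : ℕ → ℕ} (hX : cl X ∈ K) (hY : cl Y ∈ K) :
    cl (fun ν => Lib_MP_632592_lc.wprod (X ν) (Y ν)) ∈ K := by
  have := hK.closed .wprod (fun _ ν => ν) (fun j => if j = 0 then X else Y) (fun _ => hK.nn)
    (fun j => by split_ifs <;> assumption)
  simpa [G] using this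

theorem row {W i : ℕ → ℕ} (hW : cl W ∈ K) (hi : cl i ∈ K) :
    cl (fun ν => rowf (W ν) (i ν)) ∈ K :=
  hK.closed .row (fun _ => i) (fun _ => W) (fun _ => hi) (fun _ => hW)

theorem pprod {X Y i : ℕ → ℕ} (hX : cl X ∈ K) (hY : cl Y ∈ K) (hi : cl i ∈ K) :
    cl (fun ν => Lib_MP_632592_lc.pprod (X ν) (Y ν) (i ν)) ∈ K := by
  have := hK.closed .pprod (fun _ => i) (fun j => if j = 0 then X else Y) (fun _ => hi)
    (fun j => by split_ifs <;> assumption)
  simpa [G] using this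

theorem summand {X Y i : ℕ → ℕ} (hX : cl X ∈ K) (hY : cl Y ∈ K) (hi : cl i ∈ K) :
    cl (fun ν => Lib_MP_632592_lc.summand (X ν) (Y ν) (i ν)) ∈ K := by
  have := hK.closed .summand (fun _ => i) (fun j => if j = 0 then X else Y) (fun _ => hi)
    (fun j => by split_ifs <;> assumption)
  simpa [G] using this

theorem bad {X Y W : ℕ → ℕ} (hX : cl X ∈ K) (hY : cl Y ∈ K) (hW : cl W ∈ K) :
    cl (fun ν => sInf {i : ℕ | i ≤ Nat.size (Y ν) ∧
      rowf (W ν) i ≠ Lib_MP_632592_lc.pprod (X ν) (Y ν) i}) ∈ K := by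
  have := hK.closed .bad (fun _ ν => ν) (fun j => if j = 0 then X else if j = 1 then Y else W)
    (fun _ => hK.nn) (fun j => by split_ifs <;> assumption)
  simpa [G] using this

end Good

/-! ### Sizes -/

/-- Small elements: bounded by a standard power of `n`. -/
def IsSmall (x : H) : Prop := ∃ k : ℕ, x ≤ cl (fun ν => ν ^ k)

/-- Elements of string size. -/
def IsStr (x : H) : Prop := ∃ k : ℕ, x < cl (fun ν => 2 ^ (ν ^ k))

theorem isSmall_cl {x : ℕ → ℕ} :
    IsSmall (cl x) ↔ ∃ k : ℕ, ∀ᶠ ν in (hyperfilter ℕ : Filter ℕ), x ν ≤ ν ^ k := Iff.rfl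

theorem isStr_cl {x : ℕ → ℕ} :
    IsStr (cl x) ↔ ∃ k : ℕ, ∀ᶠ ν in (hyperfilter ℕ : Filter ℕ), x ν < 2 ^ (ν ^ k) := by
  unfold IsStr
  refine exists_congr fun k => ?_
  exact Germ.coe_lt

theorem ev_two_le : ∀ᶠ ν in (hyperfilter ℕ : Filter ℕ), 2 ≤ ν :=
  Nat.hyperfilter_le_atTop (eventually_ge_atTop 2)

theorem IsSmall.mono {x y : ℕ → ℕ} (hy : IsSmall (cl y))
    (h : ∀ᶠ ν in (hyperfilter ℕ : Filter ℕ), x ν ≤ y ν) : IsSmall (cl x) := by
  obtain ⟨k, hk⟩ := isSmall_cl.mp hy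
  refine isSmall_cl.mpr ⟨k, ?_⟩
  filter_upwards [hk, h] with ν h1 h2 using h2.trans h1

theorem IsStr.mono {x y : ℕ → ℕ} (hy : IsStr (cl y))
    (h : ∀ᶠ ν in (hyperfilter ℕ : Filter ℕ), x ν ≤ y ν) : IsStr (cl x) := by
  obtain ⟨k, hk⟩ := isStr_cl.mp hy
  refine isStr_cl.mpr ⟨k, ?_⟩
  filter_upwards [hk, h] with ν h1 h2 using h2.trans_lt h1

theorem isSmall_zero : IsSmall (cl (fun _ => 0)) :=
  isSmall_cl.mpr ⟨0, Eventually.of_forall fun _ => Nat.zero_le _⟩

theorem isSmall_one : IsSmall (cl (fun _ => 1)) :=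
  isSmall_cl.mpr ⟨0, Eventually.of_forall fun _ => by simp⟩

theorem IsSmall.add {x y : ℕ → ℕ} (hx : IsSmall (cl x)) (hy : IsSmall (cl y)) :
    IsSmall (cl (fun ν => x ν + y ν)) := by
  obtain ⟨k, hk⟩ := isSmall_cl.mp hx
  obtain ⟨l, hl⟩ := isSmall_cl.mp hy
  refine isSmall_cl.mpr ⟨k + l + 1, ?_⟩
  filter_upwards [hk, hl, ev_two_le] with ν h1 h2 h3
  have h4 : ν ^ k ≤ ν ^ (k + l) := Nat.pow_le_pow_right (by omega) (by omega)
  have h5 : ν ^ l ≤ ν ^ (k + l) := Nat.pow_le_pow_right (by omega) (by omega)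
  calc x ν + y ν ≤ ν ^ (k + l) + ν ^ (k + l) := by omega
    _ = ν ^ (k + l) * 2 := by ring
    _ ≤ ν ^ (k + l) * ν := Nat.mul_le_mul_left _ h3
    _ = ν ^ (k + l + 1) := by ring

theorem IsSmall.mul {x y : ℕ → ℕ} (hx : IsSmall (cl x)) (hy : IsSmall (cl y)) :
    IsSmall (cl (fun ν => x ν * y ν)) := by
  obtain ⟨k, hk⟩ := isSmall_cl.mp hx
  obtain ⟨l, hl⟩ := isSmall_cl.mp hy
  refine isSmall_cl.mpr ⟨k + l, ?_⟩
  filter_upwards [hk, hl] with ν h1 h2
  rw [pow_add]
  exact Nat.mul_le_mul h1 h2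

/-- An element below `2 ^ y` with `y` small has string size. -/
theorem IsSmall.isStr {x y : ℕ → ℕ} (hy : IsSmall (cl y))
    (h : ∀ᶠ ν in (hyperfilter ℕ : Filter ℕ), x ν < 2 ^ (y ν)) : IsStr (cl x) := by
  obtain ⟨k, hk⟩ := isSmall_cl.mp hy
  refine isStr_cl.mpr ⟨k, ?_⟩
  filter_upwards [hk, h] with ν h1 h2
  exact h2.trans_le (Nat.pow_le_pow_right (by norm_num) h1)

/-- The length of an element of string size is small. -/
theorem IsStr.size {x : ℕ → ℕ} (hx : IsStr (cl x)) : IsSmall (cl (fun ν => Nat.size (x ν))) := by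
  obtain ⟨k, hk⟩ := isStr_cl.mp hx
  refine isSmall_cl.mpr ⟨k, ?_⟩
  filter_upwards [hk] with ν h1
  exact Nat.size_le.mpr h1

theorem IsStr.add {x y : ℕ → ℕ} (hx : IsStr (cl x)) (hy : IsStr (cl y)) :
    IsStr (cl (fun ν => x ν + y ν)) := by
  have h := (hx.size.add hy.size).add isSmall_one
  refine h.isStr (Eventually.of_forall fun ν => ?_)
  have h1 := Nat.lt_size_self (x ν)
  have h2 := Nat.lt_size_self (y ν)
  have h3 : 2 ^ (x ν).size ≤ 2 ^ ((x ν).size + (y ν).size) :=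
    Nat.pow_le_pow_right (by norm_num) (by omega)
  have h4 : 2 ^ (y ν).size ≤ 2 ^ ((x ν).size + (y ν).size) :=
    Nat.pow_le_pow_right (by norm_num) (by omega)
  rw [pow_succ]
  omega

theorem IsStr.mul {x y : ℕ → ℕ} (hx : IsStr (cl x)) (hy : IsStr (cl y)) :
    IsStr (cl (fun ν => x ν * y ν)) := by
  have h := hx.size.add hy.size
  refine h.isStr (Eventually.of_forall fun ν => ?_)
  have h1 := Nat.lt_size_self (x ν)
  have h2 := Nat.lt_size_self (y ν)
  rw [pow_add]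
  exact Nat.mul_lt_mul'' h1 h2

/-! ### The model -/

/-- The number sort. -/
def MNum (K : Set H) : Type := {x : H // x ∈ K ∧ IsSmall x}

/-- The string sort. -/
def MStr (K : Set H) : Type := {x : H // x ∈ K ∧ IsStr x}

/-- The model obtained from a good set `K`. -/
noncomputable def Mod {K : Set H} (hK : Good K) : TwoSorted where
  Num := MNum K
  Str := MStr K
  zero := ⟨cl (fun _ => 0), hK.zero, isSmall_zero⟩
  one := ⟨cl (fun _ => 1), hK.one, isSmall_one⟩
  add := fun x y => ⟨Germ.map₂ (· + ·) x.1 y.1, by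
    obtain ⟨x, hx⟩ := x
    obtain ⟨y, hy⟩ := y
    obtain ⟨x, rfl⟩ := exists_cl x
    obtain ⟨y, rfl⟩ := exists_cl y
    exact ⟨hK.add hx.1 hy.1, hx.2.add hy.2⟩⟩
  mul := fun x y => ⟨Germ.map₂ (· * ·) x.1 y.1, by
    obtain ⟨x, hx⟩ := x
    obtain ⟨y, hy⟩ := y
    obtain ⟨x, rfl⟩ := exists_cl x
    obtain ⟨y, rfl⟩ := exists_cl y
    exact ⟨hK.mul hx.1 hy.1, hx.2.mul hy.2⟩⟩
  le := fun x y => x.1 ≤ y.1
  len := fun X => ⟨Germ.map Nat.size X.1, by
    obtain ⟨x, hx⟩ := X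
    obtain ⟨x, rfl⟩ := exists_cl x
    exact ⟨hK.size hx.1, hx.2.size⟩⟩
  mem := fun i X => Germ.LiftRel (fun (i X : ℕ) => X.testBit i = true) i.1 X.1

variable {K : Set H} (hK : Good K)

/-- The number of the model given by a sequence. -/
noncomputable def num (x : ℕ → ℕ) (h : cl x ∈ K) (h' : IsSmall (cl x)) : (Mod hK).Num :=
  ⟨cl x, h, h'⟩

/-- The string of the model given by a sequence. -/
noncomputable def str (x : ℕ → ℕ) (h : cl x ∈ K) (h' : IsStr (cl x)) : (Mod hK).Str :=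
  ⟨cl x, h, h'⟩

theorem exists_num (a : (Mod hK).Num) : ∃ x h h', a = num hK x h h' := by
  obtain ⟨a, ha⟩ := a
  obtain ⟨x, rfl⟩ := exists_cl a
  exact ⟨x, ha.1, ha.2, rfl⟩

theorem exists_str (a : (Mod hK).Str) : ∃ x h h', a = str hK x h h' := by
  obtain ⟨a, ha⟩ := a
  obtain ⟨x, rfl⟩ := exists_cl a
  exact ⟨x, ha.1, ha.2, rfl⟩

theorem num_eq {x y : ℕ → ℕ} {h h' k k'} : num hK x h h' = num hK y k k' ↔
    ∀ᶠ ν in (hyperfilter ℕ : Filter ℕ), x ν = y ν := by
  exact ⟨fun e => cl_eq.mp (congrArg Subtype.val e), fun e => Subtype.ext (cl_eq.mpr e)⟩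

theorem str_eq {x y : ℕ → ℕ} {h h' k k'} : str hK x h h' = str hK y k k' ↔
    ∀ᶠ ν in (hyperfilter ℕ : Filter ℕ), x ν = y ν := by
  exact ⟨fun e => cl_eq.mp (congrArg Subtype.val e), fun e => Subtype.ext (cl_eq.mpr e)⟩

theorem num_le {x y : ℕ → ℕ} {h h' k k'} : (Mod hK).le (num hK x h h') (num hK y k k') ↔
    ∀ᶠ ν in (hyperfilter ℕ : Filter ℕ), x ν ≤ y ν := Iff.rfl

theorem num_lt {x y : ℕ → ℕ} {h h' k k'} : (Mod hK).lt (num hK x h h') (num hK y k k') ↔
    ∀ᶠ ν in (hyperfilter ℕ : Filter ℕ), x ν < y ν := by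
  unfold TwoSorted.lt
  rw [num_le, Ne, num_eq, ← Ultrafilter.eventually_not, ← eventually_and]
  refine eventually_congr (Eventually.of_forall fun ν => ?_)
  omega

theorem mem_iff {x X : ℕ → ℕ} {h h' k k'} : (Mod hK).mem (num hK x h h') (str hK X k k') ↔
    ∀ᶠ ν in (hyperfilter ℕ : Filter ℕ), (X ν).testBit (x ν) = true := Iff.rfl

theorem add_num {x y : ℕ → ℕ} {h h' k k'} : (Mod hK).add (num hK x h h') (num hK y k k') =
    num hK (fun ν => x ν + y ν) (hK.add h k) (h'.add k') := rfl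

theorem mul_num {x y : ℕ → ℕ} {h h' k k'} : (Mod hK).mul (num hK x h h') (num hK y k k') =
    num hK (fun ν => x ν * y ν) (hK.mul h k) (h'.mul k') := rfl

theorem zero_num : (Mod hK).zero = num hK (fun _ => 0) hK.zero isSmall_zero := rfl

theorem one_num : (Mod hK).one = num hK (fun _ => 1) hK.one isSmall_one := rfl

theorem len_str {X : ℕ → ℕ} {h h'} : (Mod hK).len (str hK X h h') =
    num hK (fun ν => Nat.size (X ν)) (hK.size h) h'.size := rfl

theorem pairK {K : Set H} (hK : Good K) {x y : ℕ → ℕ} (h : cl x ∈ K) (k : cl y ∈ K) :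
    cl (fun ν => sp (x ν) (y ν)) ∈ K :=
  hK.add (hK.mul (hK.add h k) (hK.add (hK.add h k) hK.one))
        (hK.mul (hK.add hK.one hK.one) k)

theorem pairS {x y : ℕ → ℕ} (h' : IsSmall (cl x)) (k' : IsSmall (cl y)) :
    IsSmall (cl (fun ν => sp (x ν) (y ν))) :=
  ((h'.add k').mul ((h'.add k').add isSmall_one)).add ((isSmall_one.add isSmall_one).mul k')

theorem pair_num {x y : ℕ → ℕ} {h h' k k'} :
    (Mod hK).pair (num hK x h h') (num hK y k k') =
    num hK (fun ν => sp (x ν) (y ν)) (pairK hK h k) (pairS h' k') := rfl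

end Pool.Agent.Lib_MP_632592_lc
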