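import Pool.Agent.Lib_MP_632592_lc.VTC

/-!
# The ring of binary integers of the constructed model, and the cardinality obstruction
-/

open Filter

namespace Pool.Agent.Lib_MP_632592_lc

open TwoSorted

/-- The ultrapower of `ℤ`. -/
noncomputable abbrev HZ : Type := Germ (hyperfilter ℕ : Filter ℕ) ℤ

/-- The class of a sequence of integers. -/
noncomputable abbrev clZ (x : ℕ → ℤ) : HZ := Germ.ofFun x

theorem clZ_eq {x y : ℕ → ℤ} : clZ x = clZ y ↔ ∀ᶠ ν in (hyperfilter ℕ : Filter ℕ), x ν = y ν :=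
  Germ.coe_eq

theorem isStr_zero : IsStr (cl (fun _ => 0)) :=
  isStr_cl.mpr ⟨0, Eventually.of_forall fun ν => by positivity⟩

theorem isStr_one : IsStr (cl (fun _ => 1)) :=
  isStr_cl.mpr ⟨0, Eventually.of_forall fun ν => by norm_num⟩

variable {K : Set H} (hK : Good K)

/-- The ring of differences of elements of string size. -/
noncomputable def ZR : Subring HZ where
  carrier := {z | ∃ x y : ℕ → ℕ, cl x ∈ K ∧ IsStr (cl x) ∧ cl y ∈ K ∧ IsStr (cl y) ∧
    z = clZ (fun ν => (x ν : ℤ) - y ν)}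
  zero_mem' := ⟨_, _, hK.zero, isStr_zero, hK.zero, isStr_zero, by
    rw [← Germ.coe_zero]
    exact clZ_eq.mpr (Eventually.of_forall fun ν => by simp)⟩
  one_mem' := ⟨_, _, hK.one, isStr_one, hK.zero, isStr_zero, by
    rw [← Germ.coe_one]
    exact clZ_eq.mpr (Eventually.of_forall fun ν => by simp)⟩
  add_mem' := by
    rintro _ _ ⟨x, y, hx, hx', hy, hy', rfl⟩ ⟨z, w, hz, hz', hw, hw', rfl⟩
    refine ⟨_, _, hK.add hx hz, hx'.add hz', hK.add hy hw, hy'.add hw', ?_⟩
    rw [← Germ.coe_add]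
    exact clZ_eq.mpr (Eventually.of_forall fun ν => by
      simp only [Pi.add_apply]; push_cast; ring)
  mul_mem' := by
    rintro _ _ ⟨x, y, hx, hx', hy, hy', rfl⟩ ⟨z, w, hz, hz', hw, hw', rfl⟩
    refine ⟨_, _, hK.add (hK.mul hx hz) (hK.mul hy hw), (hx'.mul hz').add (hy'.mul hw'),
      hK.add (hK.mul hx hw) (hK.mul hy hz), (hx'.mul hw').add (hy'.mul hz'), ?_⟩
    rw [← Germ.coe_mul]
    exact clZ_eq.mpr (Eventually.of_forall fun ν => by
      simp only [Pi.mul_apply]; push_cast; ring)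
  neg_mem' := by
    rintro _ ⟨x, y, hx, hx', hy, hy', rfl⟩
    refine ⟨_, _, hy, hy', hx, hx', ?_⟩
    rw [← Germ.coe_neg]
    exact clZ_eq.mpr (Eventually.of_forall fun ν => by
      simp only [Pi.neg_apply]; ring)

theorem cast_mem {x : ℕ → ℕ} (h : cl x ∈ K) (h' : IsStr (cl x)) :
    clZ (fun ν => (x ν : ℤ)) ∈ ZR hK :=
  ⟨x, _, h, h', hK.zero, isStr_zero, clZ_eq.mpr (Eventually.of_forall fun ν => by simp)⟩

/-- The value of a string. -/
noncomputable def val (X : (Mod hK).Str) : ZR hK :=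
  ⟨Germ.map (fun n : ℕ => (n : ℤ)) X.1, by
    obtain ⟨X, h⟩ := X
    obtain ⟨x, rfl⟩ := exists_cl X
    exact cast_mem hK h.1 h.2⟩

theorem val_str {x : ℕ → ℕ} {h h'} :
    val hK (str hK x h h') = ⟨clZ (fun ν => (x ν : ℤ)), cast_mem hK h h'⟩ := rfl

theorem zr_eq {x y : ℕ → ℤ} {h h'} : (⟨clZ x, h⟩ : ZR hK) = ⟨clZ y, h'⟩ ↔
    ∀ᶠ ν in (hyperfilter ℕ : Filter ℕ), x ν = y ν :=
  ⟨fun e => clZ_eq.mp (congrArg Subtype.val e), fun e => Subtype.ext (clZ_eq.mpr e)⟩

theorem zr_lt {x y : ℕ → ℤ} {h h'} : (⟨clZ x, h⟩ : ZR hK) < ⟨clZ y, h'⟩ ↔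
    ∀ᶠ ν in (hyperfilter ℕ : Filter ℕ), x ν < y ν := by
  rw [Subtype.mk_lt_mk]
  exact Germ.coe_lt

theorem isBinaryIntegers : (Mod hK).IsBinaryIntegers (val hK) where
  injective := by
    intro X Y e
    obtain ⟨X, h, h', rfl⟩ := exists_str hK X
    obtain ⟨Y, k, k', rfl⟩ := exists_str hK Y
    rw [val_str, val_str, zr_eq] at e
    rw [str_eq]
    filter_upwards [e] with ν hν
    exact_mod_cast hν
  range_eq := by
    rintro ⟨z, x, y, hx, hx', hy, hy', rfl⟩
    constructor
    · intro hz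
      have h0 : (0 : HZ) ≤ clZ (fun ν => (x ν : ℤ) - y ν) := hz
      have h1 : ∀ᶠ ν in (hyperfilter ℕ : Filter ℕ), (0 : ℤ) ≤ (x ν : ℤ) - y ν :=
        Germ.coe_nonneg.mp h0
      refine ⟨str hK (fun ν => x ν - y ν) (hK.sub hx hy)
        (hx'.mono (Eventually.of_forall fun ν => Nat.sub_le _ _)), ?_⟩
      refine Subtype.ext (clZ_eq.mpr ?_)
      filter_upwards [h1] with ν hν
      change ((x ν - y ν : ℕ) : ℤ) = (x ν : ℤ) - y ν
      omega
    · rintro ⟨X, hX⟩
      obtain ⟨X, h, h', rfl⟩ := exists_str hK X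
      rw [← hX, val_str]
      have h0 : (0 : HZ) ≤ clZ (fun ν => (X ν : ℤ)) :=
        Germ.coe_nonneg.mpr (Eventually.of_forall fun ν => by positivity)
      exact h0
  lt_iff := by
    intro X Y
    obtain ⟨X, h, h', rfl⟩ := exists_str hK X
    obtain ⟨Y, k, k', rfl⟩ := exists_str hK Y
    rw [val_str, val_str, zr_lt, strLT_iff]
    exact eventually_congr (Eventually.of_forall fun ν => by norm_cast)
  add_iff := by
    intro X Y W
    obtain ⟨X, h, h', rfl⟩ := exists_str hK X
    obtain ⟨Y, k, k', rfl⟩ := exists_str hK Y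
    obtain ⟨W, l, l', rfl⟩ := exists_str hK W
    rw [isSum_iff]
    have h1 : val hK (str hK X h h') + val hK (str hK Y k k') = val hK (str hK W l l') ↔
        clZ (fun ν => (X ν : ℤ) + (Y ν : ℤ)) = clZ (fun ν => (W ν : ℤ)) := Subtype.ext_iff
    rw [h1, clZ_eq]
    exact eventually_congr (Eventually.of_forall fun ν => by norm_cast)
  mul_iff := by
    intro X Y W
    obtain ⟨X, h, h', rfl⟩ := exists_str hK X
    obtain ⟨Y, k, k', rfl⟩ := exists_str hK Y
    obtain ⟨W, l, l', rfl⟩ := exists_str hK W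
    rw [isProd_iff]
    have h1 : val hK (str hK X h h') * val hK (str hK Y k k') = val hK (str hK W l l') ↔
        clZ (fun ν => (X ν : ℤ) * (Y ν : ℤ)) = clZ (fun ν => (W ν : ℤ)) := Subtype.ext_iff
    rw [h1, clZ_eq]
    exact eventually_congr (Eventually.of_forall fun ν => by norm_cast)

/-! ### The cardinality obstruction -/

section obstruction

variable {M : TwoSorted} (hM : M.IsVTC0)
include hM

theorem lt_succ_self (x : M.Num) : M.lt x (M.add x M.one) := by
  rw [← hM.B11]
  rcases hM.B10 x x with h | h <;> exact h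

theorem not_lt_zero (x : M.Num) : ¬ M.lt x M.zero := by
  rintro ⟨h1, h2⟩
  exact h2 (hM.B7 _ _ h1 (hM.B9 x))

/-- If the ring of `M` is an exponential integer part of an ordered exponential field, then its
positive part injects into the number sort. -/
theorem injects {Z R : Type*} [CommRing Z] [LinearOrder Z] [IsStrictOrderedRing Z]
    [Field R] [LinearOrder R] [IsStrictOrderedRing R] {val : M.Str → Z}
    (hval : M.IsBinaryIntegers val) {E : R → R} (hE : IsExponential E) {ι : Z →+* R}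
    (hι : IsExpIntegerPart E ι) : ∃ f : {a : Z // 0 < a} → M.Num, Function.Injective f := by
  have hpos : ∀ a : {a : Z // 0 < a}, ∃ X : M.Str, 0 < val X ∧ ι (val X) = E (ι a.1) := by
    rintro ⟨a, ha⟩
    obtain ⟨b, hb⟩ := hι.exp_mem a ha
    have hb0 : 0 < b := by
      rw [← hι.strictMono.lt_iff_lt, map_zero, hb]
      exact hE.pos _
    obtain ⟨X, hX⟩ := (hval.range_eq b).mp hb0.le
    exact ⟨X, by rw [hX]; exact hb0, by rw [hX, hb]⟩
  choose X hX0 hX using hpos
  refine ⟨fun a => M.len (X a), ?_⟩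
  -- the key step
  have key : ∀ a a' : {a : Z // 0 < a}, a.1 < a'.1 → M.len (X a) ≠ M.len (X a') := by
    intro a a' haa' hlen
    have h1 : a.1 + 1 ≤ a'.1 := by
      have := hι.discrete (a'.1 - a.1) (by linarith)
      linarith
    have h2 : val (X a) + val (X a) ≤ val (X a') := by
      rw [← hι.strictMono.le_iff_le, map_add, hX, hX]
      have h3 : E (ι a.1 + 1) = E (ι a.1) * 2 := by rw [hE.map_add, hE.map_one]
      have h4 : E (ι a.1 + 1) ≤ E (ι a'.1) := by
        apply hE.strictMono.monotone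
        have := hι.strictMono.monotone h1
        rwa [map_add, map_one] at this
      rw [h3] at h4
      linarith
    -- the string `X a` has an element
    obtain ⟨O, hO⟩ := (hval.range_eq 0).mp le_rfl
    have h5 : M.StrLT O (X a) := (hval.lt_iff _ _).mp (by rw [hO]; exact hX0 a)
    obtain ⟨i, -, hi, -⟩ := h5
    have h6 : M.len (X a) ≠ M.zero := by
      intro h0
      have := hM.L1 _ _ hi
      rw [h0] at this
      exact not_lt_zero hM _ this
    obtain ⟨m, -, hm⟩ := hM.B12 _ h6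
    have hmX : M.mem m (X a) := hM.L2 _ _ hm
    -- the doubled string
    obtain ⟨T, hT⟩ := (hval.range_eq (val (X a) + val (X a))).mp
      (add_nonneg (hX0 a).le (hX0 a).le)
    have hsum : M.IsSum (X a) (X a) T := (hval.add_iff _ _ _).mp hT.symm
    have hcarry : M.Carry (M.len (X a)) (X a) (X a) := by
      refine ⟨m, ?_, hmX, hmX, fun j h7 h8 => ?_⟩
      · rw [← hm]; exact lt_succ_self hM m
      · exfalso
        rw [← hm, ← hM.B11] at h8
        exact h7.2 (hM.B7 _ _ h7.1 h8)
    have hnot : ¬ M.mem (M.len (X a)) (X a) := fun h => (hM.L1 _ _ h).2 rfl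
    have hTm : M.mem (M.len (X a)) T := by
      rw [hsum]
      exact Or.inr ⟨hcarry, fun h => h.elim (fun h => hnot h.1) (fun h => hnot h.1)⟩
    have hnot' : ¬ M.mem (M.len (X a)) (X a') := by
      rw [hlen]; exact fun h => (hM.L1 _ _ h).2 rfl
    rw [← hT] at h2
    rcases h2.lt_or_eq with h9 | h9
    · obtain ⟨i, -, hi2, hi3⟩ := (hval.lt_iff _ _).mp h9
      have h10 := hM.L1 _ _ hi2
      rw [← hlen] at h10
      exact hnot' ((hi3 _ h10).mp hTm)
    · have := hval.injective h9
      rw [this] at hTm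
      exact hnot' hTm
  intro a a' h
  rcases lt_trichotomy a.1 a'.1 with h1 | h1 | h1
  · exact absurd h (key a a' h1)
  · exact Subtype.ext h1
  · exact absurd h.symm (key a' a h1)

theorem countable_str_of {Z R : Type*} [CommRing Z] [LinearOrder Z] [IsStrictOrderedRing Z]
    [Field R] [LinearOrder R] [IsStrictOrderedRing R] {val : M.Str → Z}
    (hval : M.IsBinaryIntegers val) {E : R → R} (hE : IsExponential E) {ι : Z →+* R}
    (hι : IsExpIntegerPart E ι) (hc : Countable M.Num) : Countable M.Str := by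
  classical
  obtain ⟨f, hf⟩ := injects hM hval hE hι
  have h1 : Countable {a : Z // 0 < a} := hf.countable
  have h2 : Function.Injective (fun X : M.Str => if h : 0 < val X then
      (some ⟨val X, h⟩ : Option {a : Z // 0 < a}) else none) := by
    intro X Y e
    have hX : 0 ≤ val X := (hval.range_eq _).mpr ⟨X, rfl⟩
    have hY : 0 ≤ val Y := (hval.range_eq _).mpr ⟨Y, rfl⟩
    apply hval.injective
    dsimp only at e
    split_ifs at e with h h' h'
    · exact congrArg Subtype.val (Option.some.inj e)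
    · rw [le_antisymm (not_lt.mp h) hX, le_antisymm (not_lt.mp h') hY]
  exact h2.countable

end obstruction

theorem exists_model : ∃ (M : TwoSorted), M.IsVTC0 ∧ Countable M.Num ∧ Uncountable M.Str ∧
    ∃ (Z : Type) (_ : CommRing Z) (_ : LinearOrder Z) (_ : IsStrictOrderedRing Z)
      (v : M.Str → Z), M.IsBinaryIntegers v := by
  obtain ⟨K, hK, h1, h2⟩ := exists_good
  refine ⟨Mod hK, isVTC0 hK, h1.to_subtype, ?_, ZR hK, inferInstance, inferInstance,
    inferInstance, val hK, isBinaryIntegers hK⟩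
  rw [← not_countable_iff]
  intro hc
  apply h2
  have hc' : Countable (MStr K) := hc
  refine (Set.countable_range (fun X : MStr K => X.1)).mono ?_
  rintro x ⟨hx, hlt⟩
  refine ⟨⟨x, hx, 1, ?_⟩, rfl⟩
  simpa using hlt

end Pool.Agent.Lib_MP_632592_lc
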