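import Pool.Agent.Lib_MP_632592_lc.Defs
import Pool.Agent.Lib_MP_632592_lc.Core

/-!
# The standard two-sorted structure and facts on binary arithmetic
-/

namespace Pool.Agent.Lib_MP_632592_lc

open TwoSorted

/-- The standard structure: strings are natural numbers, viewed as sets of bits. -/
def Nstd : TwoSorted where
  Num := ℕ
  Str := ℕ
  zero := (0 : ℕ)
  one := (1 : ℕ)
  add := fun x y : ℕ => x + y
  mul := fun x y : ℕ => x * y
  le := fun x y : ℕ => x ≤ y
  len := Nat.size
  mem := fun (i X : ℕ) => X.testBit i = true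

/-- The natural number with the bits below `N` given by `P`. -/
noncomputable def ofPred (N : ℕ) (P : ℕ → Prop) : ℕ := by
  classical exact Nat.ofBits (fun i : Fin N => decide (P i))

theorem testBit_ofPred {N : ℕ} {P : ℕ → Prop} {i : ℕ} :
    (ofPred N P).testBit i = true ↔ i < N ∧ P i := by
  classical
  unfold ofPred
  rw [Nat.testBit_ofBits]
  by_cases h : i < N <;> simp [h]

theorem ofPred_lt (N : ℕ) (P : ℕ → Prop) : ofPred N P < 2 ^ N := by
  classical
  exact Nat.ofBits_lt_two_pow _

theorem ofPred_congr {N : ℕ} {P Q : ℕ → Prop} (h : ∀ i < N, (P i ↔ Q i)) :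
    ofPred N P = ofPred N Q := by
  apply Nat.eq_of_testBit_eq
  intro i
  rw [Bool.eq_iff_iff, testBit_ofPred, testBit_ofPred]
  constructor
  · rintro ⟨h1, h2⟩; exact ⟨h1, (h i h1).mp h2⟩
  · rintro ⟨h1, h2⟩; exact ⟨h1, (h i h1).mpr h2⟩

theorem lt_size_of_testBit {X i : ℕ} (h : X.testBit i = true) : i < X.size := by
  by_contra hlt
  have h1 : X < 2 ^ i := (Nat.lt_size_self X).trans_le (Nat.pow_le_pow_right (by norm_num)
    (not_lt.mp hlt))
  rw [Nat.testBit_lt_two_pow h1] at h
  exact Bool.false_ne_true h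

theorem eq_of_bits {X Y : ℕ} (h : ∀ i, (X.testBit i = true ↔ Y.testBit i = true)) : X = Y :=
  Nat.eq_of_testBit_eq fun i => Bool.eq_iff_iff.mpr (h i)

theorem testBit_size_pred {X y : ℕ} (h : y + 1 = X.size) : X.testBit y = true := by
  have h1 : 2 ^ y ≤ X := Nat.lt_size.mp (by omega)
  have h2 : X < 2 ^ (y + 1) := by rw [h]; exact Nat.lt_size_self X
  exact Nat.testBit_of_two_pow_le_and_two_pow_add_one_gt h1 h2

/-- The standard pairing function. -/
def sp (x y : ℕ) : ℕ := (x + y) * (x + y + 1) + 2 * y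

theorem sp_inj {x y x' y' : ℕ} (h : sp x y = sp x' y') : x = x' ∧ y = y' := by
  unfold sp at h
  have h1 : x + y = x' + y' := by
    by_contra hne
    rcases Nat.lt_or_gt_of_ne hne with hlt | hlt
    · have h2 : (x + y + 1) * (x + y + 2) ≤ (x' + y') * (x' + y' + 1) :=
        Nat.mul_le_mul (by omega) (by omega)
      nlinarith
    · have h2 : (x' + y' + 1) * (x' + y' + 2) ≤ (x + y) * (x + y + 1) :=
        Nat.mul_le_mul (by omega) (by omega)
      nlinarith
  rw [h1] at h
  have h2 : y = y' := by omega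
  exact ⟨by omega, h2⟩

theorem le_sp_left (x y : ℕ) : x ≤ sp x y := by
  unfold sp
  nlinarith [Nat.zero_le x, Nat.zero_le y, mul_nonneg (Nat.zero_le (x + y)) (Nat.zero_le (x + y))]

theorem le_sp_right (x y : ℕ) : y ≤ sp x y := by
  unfold sp
  nlinarith [Nat.zero_le x, Nat.zero_le y, mul_nonneg (Nat.zero_le (x + y)) (Nat.zero_le (x + y))]

theorem sp_mono {x y x' y' : ℕ} (hx : x ≤ x') (hy : y ≤ y') : sp x y ≤ sp x' y' := by
  unfold sp
  have : (x + y) * (x + y + 1) ≤ (x' + y') * (x' + y' + 1) :=
    Nat.mul_le_mul (by omega) (by omega)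
  omega

/-! ### Addition and order -/

theorem mod_two_pow_succ' (x i : ℕ) :
    x % 2 ^ (i + 1) = x % 2 ^ i + 2 ^ i * (x.testBit i).toNat := by
  rw [Nat.mod_pow_succ, Nat.testBit_eq_decide_div_mod_eq]
  rcases Nat.mod_two_eq_zero_or_one (x / 2 ^ i) with h | h <;> simp [h]

theorem carry_iff (X Y i : ℕ) : 2 ^ i ≤ X % 2 ^ i + Y % 2 ^ i ↔
    ∃ k, k < i ∧ X.testBit k = true ∧ Y.testBit k = true ∧
      ∀ j, k < j → j < i → X.testBit j = true ∨ Y.testBit j = true := by
  induction i with
  | zero =>
    simp [Nat.mod_one]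
  | succ i ih =>
    have hX := mod_two_pow_succ' X i
    have hY := mod_two_pow_succ' Y i
    have hXl : X % 2 ^ i < 2 ^ i := Nat.mod_lt _ (by positivity)
    have hYl : Y % 2 ^ i < 2 ^ i := Nat.mod_lt _ (by positivity)
    have hp : 2 ^ (i + 1) = 2 ^ i + 2 ^ i := by ring
    rw [hX, hY, hp]
    constructor
    · intro h
      rcases hx : X.testBit i with _ | _ <;> rcases hy : Y.testBit i with _ | _
      · exfalso
        rw [hx, hy] at h
        simp only [Bool.toNat_false, mul_zero, add_zero] at h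
        omega
      · have h1 : 2 ^ i ≤ X % 2 ^ i + Y % 2 ^ i := by
          rw [hx, hy] at h
          simp only [Bool.toNat_false, Bool.toNat_true, mul_zero, mul_one, add_zero] at h
          omega
        obtain ⟨k, hk, hkX, hkY, hj⟩ := ih.mp h1
        refine ⟨k, by omega, hkX, hkY, fun j hkj hji => ?_⟩
        rcases Nat.lt_succ_iff_lt_or_eq.mp hji with h2 | h2
        · exact hj j hkj h2
        · subst h2; exact Or.inr hy
      · have h1 : 2 ^ i ≤ X % 2 ^ i + Y % 2 ^ i := by
          rw [hx, hy] at h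
          simp only [Bool.toNat_false, Bool.toNat_true, mul_zero, mul_one, add_zero] at h
          omega
        obtain ⟨k, hk, hkX, hkY, hj⟩ := ih.mp h1
        refine ⟨k, by omega, hkX, hkY, fun j hkj hji => ?_⟩
        rcases Nat.lt_succ_iff_lt_or_eq.mp hji with h2 | h2
        · exact hj j hkj h2
        · subst h2; exact Or.inl hx
      · exact ⟨i, by omega, hx, hy, fun j h1 h2 => by omega⟩
    · rintro ⟨k, hk, hkX, hkY, hj⟩
      rcases Nat.lt_succ_iff_lt_or_eq.mp hk with h2 | h2
      · have h1 : 2 ^ i ≤ X % 2 ^ i + Y % 2 ^ i :=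
          ih.mpr ⟨k, h2, hkX, hkY, fun j h3 h4 => hj j h3 (by omega)⟩
        rcases hj i h2 (by omega) with h5 | h5
        · rw [h5]
          simp only [Bool.toNat_true, mul_one]
          have : 0 ≤ 2 ^ i * (Y.testBit i).toNat := Nat.zero_le _
          omega
        · rw [h5]
          simp only [Bool.toNat_true, mul_one]
          have : 0 ≤ 2 ^ i * (X.testBit i).toNat := Nat.zero_le _
          omega
      · subst h2
        rw [hkX, hkY]
        simp only [Bool.toNat_true, mul_one]
        omega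

theorem testBit_add_iff (X Y i : ℕ) : (X + Y).testBit i = true ↔
    Xor (Xor (X.testBit i = true) (Y.testBit i = true)) (2 ^ i ≤ X % 2 ^ i + Y % 2 ^ i) := by
  have hXl : X % 2 ^ i < 2 ^ i := Nat.mod_lt _ (by positivity)
  have hYl : Y % 2 ^ i < 2 ^ i := Nat.mod_lt _ (by positivity)
  have hX : X / 2 ^ i * 2 ^ i + X % 2 ^ i = X := Nat.div_add_mod' X (2 ^ i)
  have hY : Y / 2 ^ i * 2 ^ i + Y % 2 ^ i = Y := Nat.div_add_mod' Y (2 ^ i)
  have hpos : 0 < 2 ^ i := by positivity
  rw [Nat.testBit_eq_decide_div_mod_eq, Nat.testBit_eq_decide_div_mod_eq,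
    Nat.testBit_eq_decide_div_mod_eq]
  simp only [decide_eq_true_eq]
  by_cases h : 2 ^ i ≤ X % 2 ^ i + Y % 2 ^ i
  · have hsum : (X + Y) / 2 ^ i = X / 2 ^ i + Y / 2 ^ i + 1 := by
      rw [Nat.div_eq_iff hpos]
      have h1 : (X / 2 ^ i + Y / 2 ^ i + 1) * 2 ^ i =
        X / 2 ^ i * 2 ^ i + Y / 2 ^ i * 2 ^ i + 2 ^ i := by ring
      constructor <;> omega
    rw [hsum]
    unfold Xor
    have e1 : (2 ^ i ≤ X % 2 ^ i + Y % 2 ^ i) = True := eq_true h
    rw [e1]
    generalize X / 2 ^ i = p
    generalize Y / 2 ^ i = q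
    rcases Nat.mod_two_eq_zero_or_one p with hp | hp <;>
      rcases Nat.mod_two_eq_zero_or_one q with hq | hq <;>
      simp [Nat.add_mod, hp, hq]
  · have hsum : (X + Y) / 2 ^ i = X / 2 ^ i + Y / 2 ^ i := by
      rw [Nat.div_eq_iff hpos]
      have h1 : (X / 2 ^ i + Y / 2 ^ i) * 2 ^ i =
        X / 2 ^ i * 2 ^ i + Y / 2 ^ i * 2 ^ i := by ring
      constructor <;> omega
    rw [hsum]
    unfold Xor
    have e1 : (2 ^ i ≤ X % 2 ^ i + Y % 2 ^ i) = False := eq_false h
    rw [e1]
    generalize X / 2 ^ i = p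
    generalize Y / 2 ^ i = q
    rcases Nat.mod_two_eq_zero_or_one p with hp | hp <;>
      rcases Nat.mod_two_eq_zero_or_one q with hq | hq <;>
      simp [Nat.add_mod, hp, hq]

theorem std_sum (X Y i : ℕ) : (X + Y).testBit i = true ↔
    Xor (Xor (X.testBit i = true) (Y.testBit i = true))
      (∃ k, k < i ∧ X.testBit k = true ∧ Y.testBit k = true ∧
      ∀ j, k < j → j < i → X.testBit j = true ∨ Y.testBit j = true) := by
  rw [testBit_add_iff, carry_iff]

theorem std_lt (X Y : ℕ) : X < Y ↔ ∃ i, ¬ X.testBit i = true ∧ Y.testBit i = true ∧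
    ∀ j, i < j → (X.testBit j = true ↔ Y.testBit j = true) := by
  constructor
  · intro h
    have hne : X ^^^ Y ≠ 0 := by
      intro h0
      rw [Nat.xor_eq_zero_iff] at h0
      omega
    obtain ⟨i, hi, hi'⟩ := Nat.exists_most_significant_bit hne
    have hagree : ∀ j, i < j → X.testBit j = Y.testBit j := by
      intro j hj
      have := hi' j hj
      rw [Nat.testBit_xor] at this
      simpa using this
    rw [Nat.testBit_xor] at hi
    rcases hx : X.testBit i with _ | _
    · rw [hx] at hi
      refine ⟨i, by simp [hx], by simpa using hi, fun j hj => by rw [hagree j hj]⟩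
    · exfalso
      rw [hx] at hi
      have hy : Y.testBit i = false := by simpa using hi
      have := Nat.lt_of_testBit i hy hx (fun j hj => (hagree j hj).symm)
      omega
  · rintro ⟨i, hx, hy, hj⟩
    exact Nat.lt_of_testBit i (by simpa using hx) hy (fun j h => Bool.eq_iff_iff.mpr (hj j h))

/-! ### Long multiplication -/

/-- The row of an array. -/
noncomputable def rowf (W i : ℕ) : ℕ := ofPred W.size (fun j => W.testBit (sp i j) = true)

theorem testBit_rowf {W i j : ℕ} : (rowf W i).testBit j = true ↔ W.testBit (sp i j) = true := by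
  unfold rowf
  rw [testBit_ofPred]
  constructor
  · exact fun h => h.2
  · exact fun h => ⟨(le_sp_right i j).trans_lt (lt_size_of_testBit h), h⟩

/-- The running sums of the long multiplication. -/
def pprod (X Y i : ℕ) : ℕ := X * (Y % 2 ^ i)

/-- The summands of the long multiplication. -/
def summand (X Y i : ℕ) : ℕ := if Y.testBit i = true then X * 2 ^ i else 0

theorem pprod_zero (X Y : ℕ) : pprod X Y 0 = 0 := by simp [pprod, Nat.mod_one]

theorem pprod_succ (X Y i : ℕ) : pprod X Y (i + 1) = pprod X Y i + summand X Y i := by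
  unfold pprod summand
  rw [mod_two_pow_succ']
  split_ifs with h
  · rw [h]; simp; ring
  · have : Y.testBit i = false := by simpa using h
    rw [this]; simp

theorem pprod_size (X Y : ℕ) : pprod X Y Y.size = X * Y := by
  unfold pprod
  rw [Nat.mod_eq_of_lt (Nat.lt_size_self Y)]

theorem testBit_summand {X Y i j : ℕ} : (summand X Y i).testBit j = true ↔
    Y.testBit i = true ∧ ∃ k, X.testBit k = true ∧ j = k + i := by
  unfold summand
  split_ifs with h
  · rw [Nat.testBit_mul_two_pow]
    simp only [Bool.and_eq_true, decide_eq_true_eq, h, true_and]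
    constructor
    · rintro ⟨h1, h2⟩
      exact ⟨j - i, h2, by omega⟩
    · rintro ⟨k, h1, rfl⟩
      exact ⟨by omega, by simpa using h1⟩
  · simp [h]

theorem pprod_lt (X Y i : ℕ) : pprod X Y i < 2 ^ (X.size + Y.size) := by
  unfold pprod
  have h1 : X < 2 ^ X.size := Nat.lt_size_self X
  have h2 : Y % 2 ^ i < 2 ^ Y.size := (Nat.mod_le _ _).trans_lt (Nat.lt_size_self Y)
  rw [pow_add]
  exact Nat.mul_lt_mul'' h1 h2

/-- The array of running sums of the long multiplication. -/
noncomputable def wprod (X Y : ℕ) : ℕ :=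
  ofPred (sp (X.size + Y.size) (X.size + Y.size))
    (fun e => ∃ i j, i ≤ Y.size ∧ e = sp i j ∧ (pprod X Y i).testBit j = true)

theorem testBit_wprod {X Y i j : ℕ} (hi : i ≤ Y.size) :
    (wprod X Y).testBit (sp i j) = true ↔ (pprod X Y i).testBit j = true := by
  unfold wprod
  rw [testBit_ofPred]
  constructor
  · rintro ⟨-, i', j', -, he, hb⟩
    obtain ⟨rfl, rfl⟩ := sp_inj he
    exact hb
  · intro hb
    refine ⟨?_, i, j, hi, rfl, hb⟩
    have hj : j < X.size + Y.size := by
      have h1 := lt_size_of_testBit hb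
      have h2 : (pprod X Y i).size ≤ X.size + Y.size := Nat.size_le.mpr (pprod_lt X Y i)
      omega
    unfold sp
    have : (i + j) * (i + j + 1) ≤
        (X.size + Y.size + (X.size + Y.size)) * (X.size + Y.size + (X.size + Y.size) + 1) :=
      Nat.mul_le_mul (by omega) (by omega)
    omega

theorem testBit_wprod_zero {X Y j : ℕ} : ¬ (wprod X Y).testBit (sp 0 j) = true := by
  rw [testBit_wprod (Nat.zero_le _), pprod_zero]
  simp

/-! ### Counting -/

/-- The number of elements of `X` below `i`. -/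
noncomputable def cntf (X i : ℕ) : ℕ := Nat.count (fun j => X.testBit j = true) i

theorem cntf_zero (X : ℕ) : cntf X 0 = 0 := by simp [cntf]

theorem cntf_succ_pos {X i : ℕ} (h : X.testBit i = true) : cntf X (i + 1) = cntf X i + 1 := by
  simp [cntf, Nat.count_succ, h]

theorem cntf_succ_neg {X i : ℕ} (h : ¬ X.testBit i = true) : cntf X (i + 1) = cntf X i := by
  simp [cntf, Nat.count_succ, h]

theorem cntf_le (X i : ℕ) : cntf X i ≤ i := by
  unfold cntf
  exact Nat.count_le _

/-- The graph of the counting function. -/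
noncomputable def cntarr (n X : ℕ) : ℕ :=
  ofPred (sp n n + 1) (fun e => ∃ i, i ≤ n ∧ e = sp i (cntf X i))

theorem testBit_cntarr {n X i c : ℕ} (hi : i ≤ n) :
    (cntarr n X).testBit (sp i c) = true ↔ c = cntf X i := by
  unfold cntarr
  rw [testBit_ofPred]
  constructor
  · rintro ⟨-, i', -, he⟩
    obtain ⟨rfl, rfl⟩ := sp_inj he
    rfl
  · rintro rfl
    refine ⟨?_, i, hi, rfl⟩
    have := sp_mono hi ((cntf_le X i).trans hi)
    omega

/-! ### Dependence of terms and formulas on finitely many variables -/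

/-- A bound for the indices of the variables of a term. -/
def bdT : NTerm → ℕ
  | .var i => i + 1
  | .len j => j + 1
  | .zero => 0
  | .one => 0
  | .add s t => max (bdT s) (bdT t)
  | .mul s t => max (bdT s) (bdT t)

/-- A bound for the indices of the variables of a formula. -/
def bdF : BForm → ℕ
  | .eq s t => max (bdT s) (bdT t)
  | .le s t => max (bdT s) (bdT t)
  | .mem t j => max (bdT t) (j + 1)
  | .streq i j => max (i + 1) (j + 1)
  | .neg φ => bdF φ
  | .and φ ψ => max (bdF φ) (bdF ψ)
  | .ball _ t φ => max (bdT t) (bdF φ)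

theorem eval_congr (M : TwoSorted) (t : NTerm) {v v' : ℕ → M.Num} {V V' : ℕ → M.Str} {N : ℕ}
    (hN : bdT t ≤ N) (hv : ∀ j < N, v j = v' j) (hV : ∀ j < N, V j = V' j) :
    M.eval v V t = M.eval v' V' t := by
  induction t with
  | var i => exact hv i (by simp only [bdT] at hN; omega)
  | len j => simp only [eval]; rw [hV j (by simp only [bdT] at hN; omega)]
  | zero => rfl
  | one => rfl
  | add s t ihs iht =>
    simp only [bdT, max_le_iff] at hN
    simp only [eval, ihs hN.1, iht hN.2]
  | mul s t ihs iht =>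
    simp only [bdT, max_le_iff] at hN
    simp only [eval, ihs hN.1, iht hN.2]

theorem holds_congr (M : TwoSorted) (φ : BForm) {V V' : ℕ → M.Str} {N : ℕ}
    (hN : bdF φ ≤ N) (hV : ∀ j < N, V j = V' j) :
    ∀ {v v' : ℕ → M.Num}, (∀ j < N, v j = v' j) → (M.Holds V φ v ↔ M.Holds V' φ v') := by
  induction φ with
  | eq s t =>
    intro v v' hv
    simp only [bdF, max_le_iff] at hN
    simp only [Holds, eval_congr M s hN.1 hv hV, eval_congr M t hN.2 hv hV]
  | le s t =>
    intro v v' hv
    simp only [bdF, max_le_iff] at hN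
    simp only [Holds, eval_congr M s hN.1 hv hV, eval_congr M t hN.2 hv hV]
  | mem t j =>
    intro v v' hv
    simp only [bdF, max_le_iff] at hN
    simp only [Holds, eval_congr M t hN.1 hv hV, hV j (by omega)]
  | streq i j =>
    intro v v' hv
    simp only [bdF, max_le_iff] at hN
    simp only [Holds, hV i (by omega), hV j (by omega)]
  | neg φ ih =>
    intro v v' hv
    simp only [Holds, ih hN hv]
  | and φ ψ ih1 ih2 =>
    intro v v' hv
    simp only [bdF, max_le_iff] at hN
    simp only [Holds, ih1 hN.1 hv, ih2 hN.2 hv]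
  | ball i t φ ih =>
    intro v v' hv
    simp only [bdF, max_le_iff] at hN
    simp only [Holds, eval_congr M t hN.1 hv hV]
    refine forall_congr' fun x => imp_congr_right fun _ => ih hN.2 fun j hj => ?_
    by_cases hij : j = i
    · subst hij; simp
    · simp [hij, hv j hj]

end Pool.Agent.Lib_MP_632592_lc
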