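import Pool.Agent.Lib_MP_632592_lc.Los

/-!
# The constructed structure is a model of `VTC^0`
-/

open Filter

namespace Pool.Agent.Lib_MP_632592_lc

open TwoSorted

/-! ### Derived connectives -/

def BForm.imp (φ ψ : BForm) : BForm := .neg (.and φ (.neg ψ))
def BForm.or (φ ψ : BForm) : BForm := .neg (.and (.neg φ) (.neg ψ))
def BForm.iff (φ ψ : BForm) : BForm := .and (φ.imp ψ) (ψ.imp φ)
def BForm.bex (i : ℕ) (t : NTerm) (φ : BForm) : BForm := .neg (.ball i t (.neg φ))
def BForm.lt (s t : NTerm) : BForm := .and (.le s t) (.neg (.eq s t))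

section derived

variable {M : TwoSorted} {V : ℕ → M.Str} {v : ℕ → M.Num}

theorem holds_imp {φ ψ : BForm} : M.Holds V (φ.imp ψ) v ↔ (M.Holds V φ v → M.Holds V ψ v) := by
  simp only [BForm.imp, Holds]; tauto

theorem holds_or {φ ψ : BForm} : M.Holds V (φ.or ψ) v ↔ (M.Holds V φ v ∨ M.Holds V ψ v) := by
  simp only [BForm.or, Holds]; tauto

theorem holds_iff {φ ψ : BForm} : M.Holds V (φ.iff ψ) v ↔ (M.Holds V φ v ↔ M.Holds V ψ v) := by
  simp only [BForm.iff, Holds, holds_imp]; tauto

theorem holds_bex {φ : BForm} {i : ℕ} {t : NTerm} : M.Holds V (BForm.bex i t φ) v ↔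
    ∃ x, M.le x (M.eval v V t) ∧ M.Holds V φ (Function.update v i x) := by
  simp only [BForm.bex, Holds]; push Not; rfl

theorem holds_lt {s t : NTerm} : M.Holds V (BForm.lt s t) v ↔
    M.lt (M.eval v V s) (M.eval v V t) := by
  simp only [BForm.lt, Holds, TwoSorted.lt]

end derived

/-- The formula for `Carry`. -/
def carryF : BForm :=
  .bex 1 (.var 0) (.and (.lt (.var 1) (.var 0)) (.and (.mem (.var 1) 0) (.and (.mem (.var 1) 1)
    (.ball 2 (.var 0) (.imp (.and (.lt (.var 1) (.var 2)) (.lt (.var 2) (.var 0)))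
      (.or (.mem (.var 2) 0) (.mem (.var 2) 1)))))))

theorem holds_carryF {M : TwoSorted} {V : ℕ → M.Str} {v : ℕ → M.Num} :
    M.Holds V carryF v ↔ M.Carry (v 0) (V 0) (V 1) := by
  simp only [carryF, holds_bex, Holds, holds_imp, holds_or, holds_lt, eval, Carry]
  constructor
  · rintro ⟨k, -, h1, h2, h3, h4⟩
    refine ⟨k, by simpa using h1, by simpa using h2, by simpa using h3, fun j hj1 hj2 => ?_⟩
    have := h4 j (by simpa using hj2.1)
    simpa [hj1, hj2] using this
  · rintro ⟨k, h1, h2, h3, h4⟩
    refine ⟨k, by simpa using h1.1, by simpa using h1, by simpa using h2, by simpa using h3,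
      fun j hj => ?_⟩
    rintro ⟨h5, h6⟩
    have := h4 j (by simpa using h5) (by simpa using h6)
    simpa using this

theorem std_lt_iff {x y : ℕ} : Nstd.lt x y ↔ x < y := by
  change x ≤ y ∧ x ≠ y ↔ x < y
  omega

theorem std_carry {i X Y : ℕ} : Nstd.Carry i X Y ↔
    ∃ k, k < i ∧ X.testBit k = true ∧ Y.testBit k = true ∧
      ∀ j, k < j → j < i → X.testBit j = true ∨ Y.testBit j = true := by
  unfold Carry
  refine exists_congr fun k => and_congr std_lt_iff (and_congr Iff.rfl (and_congr Iff.rfl ?_))
  refine forall_congr' fun j => ?_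
  exact imp_congr std_lt_iff (imp_congr std_lt_iff Iff.rfl)

/-- The formula expressing that two strings have the same elements. -/
def sameF : BForm := .ball 0 (.add (.len 0) (.len 1)) (.iff (.mem (.var 0) 0) (.mem (.var 0) 1))

/-- The formula for `StrLT`. -/
def strltF : BForm :=
  .bex 0 (.add (.len 0) (.len 1)) (.and (.neg (.mem (.var 0) 0)) (.and (.mem (.var 0) 1)
    (.ball 1 (.add (.len 0) (.len 1)) (.imp (.lt (.var 0) (.var 1))
      (.iff (.mem (.var 1) 0) (.mem (.var 1) 1))))))

/-- A sequence with prescribed first two terms. -/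
def two {α : Type} (a b : α) (j : ℕ) : α := if j = 0 then a else b

variable {K : Set H} (hK : Good K)

theorem two_str {X Y : ℕ → ℕ} {h h' k k'} :
    ∀ j, ∃ p p', two (str hK X h h') (str hK Y k k') j = str hK (two X Y j) p p' := by
  intro j
  unfold two
  by_cases hj : j = 0
  · simp only [hj, if_true]; exact ⟨h, h', trivial⟩
  · simp only [hj, if_false]; exact ⟨k, k', trivial⟩

theorem two_num {X Y : ℕ → ℕ} {h h' k k'} :
    ∀ j, ∃ p p', two (num hK X h h') (num hK Y k k') j = num hK (two X Y j) p p' := by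
  intro j
  unfold two
  by_cases hj : j = 0
  · simp only [hj, if_true]; exact ⟨h, h', trivial⟩
  · simp only [hj, if_false]; exact ⟨k, k', trivial⟩

theorem carry_los {i X Y : ℕ → ℕ} {p p' h h' k k'} :
    (Mod hK).Carry (num hK i p p') (str hK X h h') (str hK Y k k') ↔
    ∀ᶠ ν in (hyperfilter ℕ : Filter ℕ), Nstd.Carry (i ν) (X ν) (Y ν) := by
  have h1 := los hK (two_str hK (X := X) (Y := Y) (h := h) (h' := h') (k := k) (k' := k')) carryF
    (two_num hK (X := i) (Y := i) (h := p) (h' := p') (k := p) (k' := p'))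
  rw [holds_carryF] at h1
  exact h1.trans (eventually_congr (Eventually.of_forall fun ν => holds_carryF))

theorem mem_lt_len {i X : ℕ → ℕ} {p p' h h'} (hm : (Mod hK).mem (num hK i p p') (str hK X h h')) :
    (Mod hK).lt (num hK i p p') ((Mod hK).len (str hK X h h')) := by
  rw [len_str, num_lt]
  filter_upwards [(mem_iff hK).mp hm] with ν hν using lt_size_of_testBit hν

/-- Extensionality for strings. -/
theorem str_ext {X Y : (Mod hK).Str} (hXY : ∀ i, (Mod hK).mem i X ↔ (Mod hK).mem i Y) :
    X = Y := by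
  obtain ⟨X, h, h', rfl⟩ := exists_str hK X
  obtain ⟨Y, k, k', rfl⟩ := exists_str hK Y
  have h1 := los hK (two_str hK (X := X) (Y := Y) (h := h) (h' := h') (k := k) (k' := k')) sameF
    (two_num hK (X := fun _ => 0) (Y := fun _ => 0) (h := hK.zero) (h' := isSmall_zero)
      (k := hK.zero) (k' := isSmall_zero))
  have h2 : (Mod hK).Holds (two (str hK X h h') (str hK Y k k')) sameF
      (two (num hK (fun _ => 0) hK.zero isSmall_zero)
        (num hK (fun _ => 0) hK.zero isSmall_zero)) := by
    simp only [sameF, Holds, holds_iff, eval, Function.update_self]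
    intro x _
    exact hXY x
  have h3 := h1.mp h2
  rw [str_eq]
  filter_upwards [h3] with ν hν
  apply eq_of_bits
  intro i
  by_cases hi : i ≤ (X ν).size + (Y ν).size
  · exact holds_iff.mp (hν i hi)
  · constructor
    · intro hb
      have := lt_size_of_testBit hb
      omega
    · intro hb
      have := lt_size_of_testBit hb
      omega

theorem xor_ev {p q : ℕ → Prop} : Xor (∀ᶠ ν in (hyperfilter ℕ : Filter ℕ), p ν)
    (∀ᶠ ν in (hyperfilter ℕ : Filter ℕ), q ν) ↔
    ∀ᶠ ν in (hyperfilter ℕ : Filter ℕ), Xor (p ν) (q ν) := by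
  unfold Xor
  rw [Ultrafilter.eventually_or, eventually_and, eventually_and, Ultrafilter.eventually_not,
    Ultrafilter.eventually_not]

theorem isSum_of {X Y Z : ℕ → ℕ} {h h' k k' l l'}
    (hs : ∀ᶠ ν in (hyperfilter ℕ : Filter ℕ), X ν + Y ν = Z ν) :
    (Mod hK).IsSum (str hK X h h') (str hK Y k k') (str hK Z l l') := by
  intro i
  obtain ⟨i, p, p', rfl⟩ := exists_num hK i
  rw [mem_iff, mem_iff, mem_iff, carry_los, xor_ev, xor_ev]
  refine eventually_congr ?_
  filter_upwards [hs] with ν hν
  rw [← hν, std_sum, std_carry]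

theorem isSum_iff {X Y Z : ℕ → ℕ} {h h' k k' l l'} :
    (Mod hK).IsSum (str hK X h h') (str hK Y k k') (str hK Z l l') ↔
    ∀ᶠ ν in (hyperfilter ℕ : Filter ℕ), X ν + Y ν = Z ν := by
  refine ⟨fun hs => ?_, isSum_of hK⟩
  have h1 : (Mod hK).IsSum (str hK X h h') (str hK Y k k')
      (str hK (fun ν => X ν + Y ν) (hK.add h k) (h'.add k')) :=
    isSum_of hK (Eventually.of_forall fun ν => rfl)
  have h2 : str hK (fun ν => X ν + Y ν) (hK.add h k) (h'.add k') = str hK Z l l' := by
    apply str_ext hK
    intro i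
    rw [h1 i, hs i]
  exact (str_eq hK).mp h2

/-! ### Products -/

theorem wprod_isStr {X Y : ℕ → ℕ} (h' : IsStr (cl X)) (k' : IsStr (cl Y)) :
    IsStr (cl (fun ν => wprod (X ν) (Y ν))) := by
  have hs := h'.size.add k'.size
  exact (pairS hs hs).isStr (Eventually.of_forall fun ν => ofPred_lt _ _)

theorem pprod_isStr {X Y : ℕ → ℕ} (h' : IsStr (cl X)) (k' : IsStr (cl Y)) (i : ℕ → ℕ) :
    IsStr (cl (fun ν => pprod (X ν) (Y ν) (i ν))) :=
  (h'.size.add k'.size).isStr (Eventually.of_forall fun ν => pprod_lt _ _ _)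

theorem summand_isStr {X Y : ℕ → ℕ} (h' : IsStr (cl X)) (k' : IsStr (cl Y)) (i : ℕ → ℕ) :
    IsStr (cl (fun ν => summand (X ν) (Y ν) (i ν))) := by
  refine (pprod_isStr h' k' (fun ν => i ν + 1)).mono (Eventually.of_forall fun ν => ?_)
  rw [pprod_succ]
  exact Nat.le_add_left _ _

theorem rowf_isStr {W : ℕ → ℕ} (h' : IsStr (cl W)) (i : ℕ → ℕ) :
    IsStr (cl (fun ν => rowf (W ν) (i ν))) :=
  h'.size.isStr (Eventually.of_forall fun ν => ofPred_lt _ _)

theorem isSummand {X Y i : ℕ → ℕ} {h h' k k' p p'} :
    (Mod hK).IsSummand (str hK X h h') (str hK Y k k') (num hK i p p')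
      (str hK (fun ν => summand (X ν) (Y ν) (i ν)) (hK.summand h k p)
        (summand_isStr h' k' i)) := by
  intro j
  obtain ⟨j, q, q', rfl⟩ := exists_num hK j
  rw [mem_iff, mem_iff]
  constructor
  · intro hm
    have hm' : ∀ᶠ ν in (hyperfilter ℕ : Filter ℕ), (Y ν).testBit (i ν) = true ∧
        ∃ k, (X ν).testBit k = true ∧ j ν = k + i ν := hm.mono fun ν hν => testBit_summand.mp hν
    refine ⟨hm'.mono fun ν hν => hν.1, ?_⟩
    refine ⟨num hK (fun ν => j ν - i ν) (hK.sub q p)
      (q'.mono (Eventually.of_forall fun ν => Nat.sub_le _ _)), ?_, ?_⟩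
    · rw [mem_iff]
      filter_upwards [hm'] with ν hν
      obtain ⟨-, l, h1, h2⟩ := hν
      rw [h2]; simpa using h1
    · rw [add_num, num_eq]
      filter_upwards [hm'] with ν hν
      obtain ⟨-, l, h1, h2⟩ := hν
      omega
  · rintro ⟨h1, l, h2, h3⟩
    obtain ⟨l, r, r', rfl⟩ := exists_num hK l
    rw [mem_iff] at h2
    rw [add_num, num_eq] at h3
    filter_upwards [h1, h2, h3] with ν h4 h5 h6
    exact testBit_summand.mpr ⟨h4, l ν, h5, h6⟩

theorem isRow {W i : ℕ → ℕ} {h h' p p'} :
    (Mod hK).IsRow (str hK W h h') (num hK i p p')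
      (str hK (fun ν => rowf (W ν) (i ν)) (hK.row h p) (rowf_isStr h' i)) := by
  intro j
  obtain ⟨j, q, q', rfl⟩ := exists_num hK j
  rw [pair_num, mem_iff, mem_iff]
  exact eventually_congr (Eventually.of_forall fun ν => testBit_rowf)

theorem isProd_of {X Y : ℕ → ℕ} {h h' k k'} :
    (Mod hK).IsProd (str hK X h h') (str hK Y k k')
      (str hK (fun ν => X ν * Y ν) (hK.mul h k) (h'.mul k')) := by
  refine ⟨str hK (fun ν => wprod (X ν) (Y ν)) (hK.wprod h k) (wprod_isStr h' k'), ?_, ?_, ?_⟩
  · intro j
    obtain ⟨j, q, q', rfl⟩ := exists_num hK j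
    rw [zero_num, pair_num, mem_iff]
    intro hcon
    obtain ⟨ν, hν⟩ := hcon.exists
    exact testBit_wprod_zero hν
  · intro i hi
    obtain ⟨i, p, p', rfl⟩ := exists_num hK i
    rw [len_str, num_lt] at hi
    refine ⟨str hK (fun ν => pprod (X ν) (Y ν) (i ν)) (hK.pprod h k p) (pprod_isStr h' k' i),
      str hK (fun ν => summand (X ν) (Y ν) (i ν)) (hK.summand h k p) (summand_isStr h' k' i),
      str hK (fun ν => pprod (X ν) (Y ν) (i ν + 1)) (hK.pprod h k (hK.add p hK.one))
        (pprod_isStr h' k' (fun ν => i ν + 1)), ?_, isSummand hK, ?_, ?_⟩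
    · intro j
      obtain ⟨j, q, q', rfl⟩ := exists_num hK j
      rw [pair_num, mem_iff, mem_iff]
      refine eventually_congr ?_
      filter_upwards [hi] with ν hν
      exact (testBit_wprod hν.le).symm
    · intro j
      obtain ⟨j, q, q', rfl⟩ := exists_num hK j
      rw [one_num, add_num, pair_num, mem_iff, mem_iff]
      refine eventually_congr ?_
      filter_upwards [hi] with ν hν
      exact (testBit_wprod hν).symm
    · apply isSum_of
      exact Eventually.of_forall fun ν => (pprod_succ _ _ _).symm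
  · intro j
    obtain ⟨j, q, q', rfl⟩ := exists_num hK j
    rw [len_str, pair_num, mem_iff, mem_iff]
    refine eventually_congr (Eventually.of_forall fun ν => ?_)
    rw [testBit_wprod le_rfl, pprod_size]

theorem isProd_iff {X Y Z : ℕ → ℕ} {h h' k k' l l'} :
    (Mod hK).IsProd (str hK X h h') (str hK Y k k') (str hK Z l l') ↔
    ∀ᶠ ν in (hyperfilter ℕ : Filter ℕ), X ν * Y ν = Z ν := by
  constructor
  · rintro ⟨W, h0, h1, h2⟩
    obtain ⟨W, w, w', rfl⟩ := exists_str hK W
    by_contra hcon
    rw [← Ultrafilter.eventually_not] at hcon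
    -- the last row
    have hZ : ∀ᶠ ν in (hyperfilter ℕ : Filter ℕ), Z ν = rowf (W ν) (Y ν).size := by
      have : str hK Z l l' = str hK (fun ν => rowf (W ν) (Y ν).size) (hK.row w (hK.size k))
          (rowf_isStr w' _) := by
        apply str_ext hK
        intro j
        rw [h2 j, len_str, isRow hK (W := W) (h := w) (h' := w') (p := hK.size k)
          (p' := k'.size) j]
      exact (str_eq hK).mp this
    -- the first bad row
    let s : ℕ → ℕ := fun ν => sInf {i : ℕ | i ≤ Nat.size (Y ν) ∧
      rowf (W ν) i ≠ pprod (X ν) (Y ν) i}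
    have hs : ∀ᶠ ν in (hyperfilter ℕ : Filter ℕ), s ν ≤ Nat.size (Y ν) ∧
        rowf (W ν) (s ν) ≠ pprod (X ν) (Y ν) (s ν) := by
      filter_upwards [hZ, hcon] with ν e1 e2
      refine Nat.sInf_mem (s := {i : ℕ | i ≤ Nat.size (Y ν) ∧
        rowf (W ν) i ≠ pprod (X ν) (Y ν) i}) ⟨(Y ν).size, le_rfl, ?_⟩
      rw [← e1, pprod_size]
      exact fun e => e2 e.symm
    have hsK : cl s ∈ K := hK.bad h k w
    have hsS : IsSmall (cl s) := k'.size.mono (hs.mono fun ν hν => hν.1)
    -- row zero is zero
    have hr0 : ∀ᶠ ν in (hyperfilter ℕ : Filter ℕ), rowf (W ν) 0 = 0 := by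
      have h0s : IsStr (cl (fun _ => 0)) := isStr_cl.mpr ⟨0, Eventually.of_forall fun ν => by
        positivity⟩
      have : str hK (fun ν => rowf (W ν) 0) (hK.row w hK.zero) (rowf_isStr w' _) =
          str hK (fun _ => 0) hK.zero h0s := by
        apply str_ext hK
        intro j
        rw [isRow hK (W := W) (h := w) (h' := w') (p := hK.zero) (p' := isSmall_zero) j]
        obtain ⟨j, q, q', rfl⟩ := exists_num hK j
        constructor
        · intro hm
          exact absurd hm (h0 _)
        · intro hm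
          rw [mem_iff] at hm
          obtain ⟨ν, hν⟩ := hm.exists
          simp at hν
      exact (str_eq hK).mp this
    have hs1 : ∀ᶠ ν in (hyperfilter ℕ : Filter ℕ), 1 ≤ s ν := by
      filter_upwards [hs, hr0] with ν e1 e2
      rcases Nat.eq_zero_or_pos (s ν) with h3 | h3
      · exfalso
        apply e1.2
        rw [h3, e2, pprod_zero]
      · exact h3
    have hiK : cl (fun ν => s ν - 1) ∈ K := hK.sub hsK hK.one
    have hiS : IsSmall (cl (fun ν => s ν - 1)) :=
      hsS.mono (Eventually.of_forall fun ν => Nat.sub_le _ _)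
    have hlt : (Mod hK).lt (num hK (fun ν => s ν - 1) hiK hiS)
        ((Mod hK).len (str hK Y k k')) := by
      rw [len_str, num_lt]
      filter_upwards [hs, hs1] with ν e1 e2
      omega
    obtain ⟨R, D, R', hR, hD, hR', hsum⟩ := h1 _ hlt
    have eR : R = str hK (fun ν => rowf (W ν) (s ν - 1)) (hK.row w hiK) (rowf_isStr w' _) := by
      apply str_ext hK
      intro j
      rw [hR j, isRow hK (W := W) (h := w) (h' := w') (p := hiK) (p' := hiS) j]
    have eD : D = str hK (fun ν => summand (X ν) (Y ν) (s ν - 1)) (hK.summand h k hiK)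
        (summand_isStr h' k' _) := by
      apply str_ext hK
      intro j
      rw [hD j, isSummand hK (h := h) (h' := h') (k := k) (k' := k') (p := hiK) (p' := hiS) j]
    have eR' : R' = str hK (fun ν => rowf (W ν) (s ν - 1 + 1)) (hK.row w (hK.add hiK hK.one))
        (rowf_isStr w' _) := by
      apply str_ext hK
      intro j
      rw [hR' j, one_num, add_num, isRow hK (W := W) (h := w) (h' := w')
        (p := hK.add hiK hK.one) (p' := hiS.add isSmall_one) j]
    rw [eR, eD, eR', isSum_iff] at hsum
    have : ∀ᶠ ν in (hyperfilter ℕ : Filter ℕ), False := by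
      filter_upwards [hsum, hs, hs1] with ν e1 e2 e3
      have e4 : s ν - 1 + 1 = s ν := by omega
      have e5 : rowf (W ν) (s ν - 1) = pprod (X ν) (Y ν) (s ν - 1) := by
        have := Nat.notMem_of_lt_sInf (s := {i : ℕ | i ≤ Nat.size (Y ν) ∧
          rowf (W ν) i ≠ pprod (X ν) (Y ν) i}) (m := s ν - 1) (by
            change s ν - 1 < s ν
            omega)
        by_contra hne
        exact this ⟨by omega, hne⟩
      rw [e5, ← pprod_succ, e4] at e1
      exact e2.2 e1.symm
    exact this.exists.elim fun _ h => h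
  · intro hZ
    have h1 : str hK Z l l' = str hK (fun ν => X ν * Y ν) (hK.mul h k) (h'.mul k') :=
      (str_eq hK).mpr (hZ.mono fun ν hν => hν.symm)
    rw [h1]
    exact isProd_of hK

/-! ### Order -/

theorem strLT_of {X Y : ℕ → ℕ} {h h' k k'}
    (hlt : ∀ᶠ ν in (hyperfilter ℕ : Filter ℕ), X ν < Y ν) :
    (Mod hK).StrLT (str hK X h h') (str hK Y k k') := by
  have h1 := los hK (two_str hK (X := X) (Y := Y) (h := h) (h' := h') (k := k) (k' := k')) strltF
    (two_num hK (X := fun _ => 0) (Y := fun _ => 0) (h := hK.zero) (h' := isSmall_zero)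
      (k := hK.zero) (k' := isSmall_zero))
  have h2 : ∀ᶠ ν in (hyperfilter ℕ : Filter ℕ), Nstd.Holds (fun j => two X Y j ν) strltF
      (fun j => two (fun _ => (0 : ℕ)) (fun _ => (0 : ℕ)) j ν) := by
    filter_upwards [hlt] with ν hν
    obtain ⟨i, hi1, hi2, hi3⟩ := (std_lt _ _).mp hν
    refine holds_bex.mpr ⟨(i : ℕ), ?_, And.intro hi1 (And.intro hi2 ?_)⟩
    · have := lt_size_of_testBit hi2
      change i ≤ (X ν).size + (Y ν).size
      omega
    · intro j _
      refine holds_imp.mpr fun hj => holds_iff.mpr ?_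
      exact hi3 j (std_lt_iff.mp (holds_lt.mp hj))
  have h3 := h1.mpr h2
  obtain ⟨i, -, hi1, hi2, hi3⟩ := holds_bex.mp h3
  refine ⟨i, hi1, hi2, fun j hj => ?_⟩
  by_cases hjl : (Mod hK).le j ((Mod hK).add ((Mod hK).len (str hK X h h'))
      ((Mod hK).len (str hK Y k k')))
  · exact holds_iff.mp (holds_imp.mp (hi3 j hjl) (holds_lt.mpr hj))
  · obtain ⟨j, q, q', rfl⟩ := exists_num hK j
    rw [len_str, len_str, add_num, num_le, ← Ultrafilter.eventually_not] at hjl
    rw [mem_iff, mem_iff]
    refine eventually_congr ?_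
    filter_upwards [hjl] with ν hν
    constructor
    · intro hb
      have := lt_size_of_testBit hb
      omega
    · intro hb
      have := lt_size_of_testBit hb
      omega

theorem strLT_iff {X Y : ℕ → ℕ} {h h' k k'} :
    (Mod hK).StrLT (str hK X h h') (str hK Y k k') ↔
    ∀ᶠ ν in (hyperfilter ℕ : Filter ℕ), X ν < Y ν := by
  refine ⟨?_, strLT_of hK⟩
  rintro ⟨i, h1, h2, h3⟩
  by_contra hcon
  rw [← Ultrafilter.eventually_not] at hcon
  obtain ⟨i, p, p', rfl⟩ := exists_num hK i
  have hlt : ∀ᶠ ν in (hyperfilter ℕ : Filter ℕ), Y ν < X ν := by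
    rw [mem_iff] at h1 h2
    rw [← Ultrafilter.eventually_not] at h1
    filter_upwards [hcon, h1, h2] with ν e1 e2 e3
    rcases Nat.lt_or_ge (Y ν) (X ν) with h4 | h4
    · exact h4
    · exfalso
      have : X ν = Y ν := by omega
      rw [this] at e2
      exact e2 e3
  obtain ⟨j, k1, k2, k3⟩ := strLT_of hK (h := k) (h' := k') (k := h) (k' := h') hlt
  obtain ⟨j, q, q', rfl⟩ := exists_num hK j
  by_cases hij : (Mod hK).lt (num hK i p p') (num hK j q q')
  · exact k1 ((h3 _ hij).mp k2)
  · by_cases hji : (Mod hK).lt (num hK j q q') (num hK i p p')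
    · exact h1 ((k3 _ hji).mp h2)
    · rw [num_lt, ← Ultrafilter.eventually_not] at hij hji
      have : num hK i p p' = num hK j q q' := by
        rw [num_eq]
        filter_upwards [hij, hji] with ν e1 e2
        omega
      rw [this] at h2
      exact k1 h2

/-! ### The axioms -/

theorem comprehension (φ : BForm) (i : ℕ) (v : ℕ → (Mod hK).Num) (V : ℕ → (Mod hK).Str)
    (y : (Mod hK).Num) : ∃ X : (Mod hK).Str, (Mod hK).le ((Mod hK).len X) y ∧
      ∀ z, (Mod hK).lt z y → ((Mod hK).mem z X ↔
        (Mod hK).Holds V φ (Function.update v i z)) := by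
  choose x hx hx' hv using fun j => exists_num hK (v j)
  choose u hu hu' hV using fun j => exists_str hK (V j)
  obtain ⟨y, q, q', rfl⟩ := exists_num hK y
  have hXK : cl (fun ν => ofPred (y ν) (fun z => Nstd.Holds (fun j => u j ν) φ
      (Function.update (fun j => x j ν) i z))) ∈ K := by
    have := hK.closed (.comp φ i) (Function.update x i y) u (fun j => by
      by_cases hji : j = i
      · subst hji; simpa using q
      · simpa [hji] using hx j) hu
    refine (congrArg (· ∈ K) (congrArg cl ?_)).mp this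
    funext ν
    have e1 : ∀ z : ℕ, Function.update (fun j => Function.update x i y j ν) i z =
        Function.update (fun j => x j ν) i z := by
      intro z
      funext j
      by_cases hji : j = i
      · subst hji; simp
      · simp [hji]
    change ofPred (Function.update x i y i ν) (fun z => Nstd.Holds (fun j => u j ν) φ
      (Function.update (fun j => Function.update x i y j ν) i z)) = _
    rw [Function.update_self]
    congr 1
    funext z
    exact congrArg (fun w => Nstd.Holds (fun j => u j ν) φ w) (e1 z)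
  have hXS : IsStr (cl (fun ν => ofPred (y ν) (fun z => Nstd.Holds (fun j => u j ν) φ
      (Function.update (fun j => x j ν) i z)))) :=
    q'.isStr (Eventually.of_forall fun ν => ofPred_lt _ _)
  refine ⟨str hK _ hXK hXS, ?_, ?_⟩
  · rw [len_str, num_le]
    exact Eventually.of_forall fun ν => Nat.size_le.mpr (ofPred_lt _ _)
  · intro z hz
    obtain ⟨z, r, r', rfl⟩ := exists_num hK z
    rw [num_lt] at hz
    rw [mem_iff]
    have h2 : ∀ j, ∃ h h', Function.update v i (num hK z r r') j =
        num hK (Function.update x i z j) h h' := by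
      intro j
      by_cases hji : j = i
      · subst hji
        simp only [Function.update_self]
        exact ⟨r, r', trivial⟩
      · simp only [Function.update_of_ne hji]
        exact ⟨hx j, hx' j, hv j⟩
    rw [los hK (fun j => ⟨hu j, hu' j, hV j⟩) φ h2]
    refine eventually_congr ?_
    filter_upwards [hz] with ν hν
    rw [testBit_ofPred, update_seq]
    exact ⟨fun h => h.2, fun h => ⟨hν, h⟩⟩

theorem counting (n : (Mod hK).Num) (X : (Mod hK).Str) :
    ∃ C : (Mod hK).Str, (Mod hK).IsCount n X C := by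
  obtain ⟨n, p, p', rfl⟩ := exists_num hK n
  obtain ⟨X, h, h', rfl⟩ := exists_str hK X
  have hS : IsStr (cl (fun ν => cntarr (n ν) (X ν))) := by
    exact ((pairS p' p').add isSmall_one).isStr (Eventually.of_forall fun ν => ofPred_lt _ _)
  refine ⟨str hK (fun ν => cntarr (n ν) (X ν)) (hK.cntarr p h) hS, ?_, ?_⟩
  · intro c
    obtain ⟨c, q, q', rfl⟩ := exists_num hK c
    rw [zero_num, pair_num, mem_iff, num_eq]
    refine eventually_congr (Eventually.of_forall fun ν => ?_)
    rw [testBit_cntarr (Nat.zero_le _), cntf_zero]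
  · intro i hi
    obtain ⟨i, q, q', rfl⟩ := exists_num hK i
    rw [num_lt] at hi
    have hc : cl (fun ν => cntf (X ν) (i ν)) ∈ K := hK.cnt q h
    have hc' : IsSmall (cl (fun ν => cntf (X ν) (i ν))) :=
      q'.mono (Eventually.of_forall fun ν => cntf_le _ _)
    refine ⟨num hK _ hc hc', ?_, ?_, ?_⟩
    · intro d
      obtain ⟨d, r, r', rfl⟩ := exists_num hK d
      rw [pair_num, mem_iff, num_eq]
      refine eventually_congr ?_
      filter_upwards [hi] with ν hν
      exact testBit_cntarr hν.le
    · intro hm d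
      obtain ⟨d, r, r', rfl⟩ := exists_num hK d
      rw [mem_iff] at hm
      rw [one_num, add_num, add_num, pair_num, mem_iff, num_eq]
      refine eventually_congr ?_
      filter_upwards [hi, hm] with ν hν hν'
      rw [testBit_cntarr hν, cntf_succ_pos hν']
    · intro hm d
      obtain ⟨d, r, r', rfl⟩ := exists_num hK d
      rw [mem_iff, ← Ultrafilter.eventually_not] at hm
      rw [one_num, add_num, pair_num, mem_iff, num_eq]
      refine eventually_congr ?_
      filter_upwards [hi, hm] with ν hν hν'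
      rw [testBit_cntarr hν, cntf_succ_neg hν']

theorem isVTC0 : (Mod hK).IsVTC0 where
  B1 := by
    intro x e
    obtain ⟨x, h, h', rfl⟩ := exists_num hK x
    rw [one_num, add_num, zero_num, num_eq] at e
    obtain ⟨ν, hν⟩ := e.exists
    omega
  B2 := by
    intro x y e
    obtain ⟨x, h, h', rfl⟩ := exists_num hK x
    obtain ⟨y, k, k', rfl⟩ := exists_num hK y
    rw [one_num, add_num, add_num, num_eq] at e
    rw [num_eq]
    filter_upwards [e] with ν hν
    omega
  B3 := by
    intro x
    obtain ⟨x, h, h', rfl⟩ := exists_num hK x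
    rw [zero_num, add_num, num_eq]
    exact Eventually.of_forall fun ν => rfl
  B4 := by
    intro x y
    obtain ⟨x, h, h', rfl⟩ := exists_num hK x
    obtain ⟨y, k, k', rfl⟩ := exists_num hK y
    rw [one_num, add_num, add_num, add_num, add_num, num_eq]
    exact Eventually.of_forall fun ν => rfl
  B5 := by
    intro x
    obtain ⟨x, h, h', rfl⟩ := exists_num hK x
    rw [zero_num, mul_num, num_eq]
    exact Eventually.of_forall fun ν => rfl
  B6 := by
    intro x y
    obtain ⟨x, h, h', rfl⟩ := exists_num hK x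
    obtain ⟨y, k, k', rfl⟩ := exists_num hK y
    rw [one_num, add_num, mul_num, mul_num, add_num, num_eq]
    exact Eventually.of_forall fun ν => rfl
  B7 := by
    intro x y h1 h2
    obtain ⟨x, h, h', rfl⟩ := exists_num hK x
    obtain ⟨y, k, k', rfl⟩ := exists_num hK y
    rw [num_le] at h1 h2
    rw [num_eq]
    filter_upwards [h1, h2] with ν e1 e2
    omega
  B8 := by
    intro x y
    obtain ⟨x, h, h', rfl⟩ := exists_num hK x
    obtain ⟨y, k, k', rfl⟩ := exists_num hK y
    rw [add_num, num_le]
    exact Eventually.of_forall fun ν => by omega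
  B9 := by
    intro x
    obtain ⟨x, h, h', rfl⟩ := exists_num hK x
    rw [zero_num, num_le]
    exact Eventually.of_forall fun ν => by omega
  B10 := by
    intro x y
    obtain ⟨x, h, h', rfl⟩ := exists_num hK x
    obtain ⟨y, k, k', rfl⟩ := exists_num hK y
    rw [num_le, num_le, ← Ultrafilter.eventually_or]
    exact Eventually.of_forall fun ν => by omega
  B11 := by
    intro x y
    obtain ⟨x, h, h', rfl⟩ := exists_num hK x
    obtain ⟨y, k, k', rfl⟩ := exists_num hK y
    rw [one_num, add_num, num_le, num_lt]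
    exact eventually_congr (Eventually.of_forall fun ν => by omega)
  B12 := by
    intro x hx
    obtain ⟨x, h, h', rfl⟩ := exists_num hK x
    rw [zero_num, Ne, num_eq, ← Ultrafilter.eventually_not] at hx
    refine ⟨num hK (fun ν => x ν - 1) (hK.sub h hK.one)
      (h'.mono (Eventually.of_forall fun ν => Nat.sub_le _ _)), ?_, ?_⟩
    · rw [num_le]
      exact Eventually.of_forall fun ν => Nat.sub_le _ _
    · rw [one_num, add_num, num_eq]
      filter_upwards [hx] with ν hν
      omega
  L1 := by
    intro X y hm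
    obtain ⟨X, h, h', rfl⟩ := exists_str hK X
    obtain ⟨y, k, k', rfl⟩ := exists_num hK y
    exact mem_lt_len hK hm
  L2 := by
    intro X y e
    obtain ⟨X, h, h', rfl⟩ := exists_str hK X
    obtain ⟨y, k, k', rfl⟩ := exists_num hK y
    rw [one_num, add_num, len_str, num_eq] at e
    rw [mem_iff]
    filter_upwards [e] with ν hν
    exact testBit_size_pred hν
  SE := by
    intro X Y hl hm
    apply str_ext hK
    intro i
    by_cases hi : (Mod hK).lt i ((Mod hK).len X)
    · exact hm i hi
    · obtain ⟨X, h, h', rfl⟩ := exists_str hK X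
      obtain ⟨Y, k, k', rfl⟩ := exists_str hK Y
      obtain ⟨i, p, p', rfl⟩ := exists_num hK i
      constructor
      · intro h1
        exact absurd (mem_lt_len hK h1) hi
      · intro h1
        have := mem_lt_len hK h1
        rw [← hl] at this
        exact absurd this hi
  comprehension := comprehension hK
  counting := counting hK
  multiplication := by
    intro X Y
    obtain ⟨X, h, h', rfl⟩ := exists_str hK X
    obtain ⟨Y, k, k', rfl⟩ := exists_str hK Y
    exact ⟨_, isProd_of hK⟩

end Pool.Agent.Lib_MP_632592_lc
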